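import Pool.Agent.W546.FermatP.Tables

/-!
# The degrees and characteristics
-/

set_option autoImplicit false
set_option linter.unusedVariables false

namespace Pool.Agent.W546.FermatP

open Pool.Agent.W546.Fermat (IsCharacter)
open Pool.Agent.H916T

variable {p : ℕ}

/-- the hypotheses of the main theorem for the degree `M` -/
def GoodP (p M : ℕ) : Prop := 2 < M ∧ p.Coprime M ∧ FullSlopes p M ∧ TateAlgebraic p M

theorem tate235 (hp : p.Prime) {m : ℕ} (hm : 0 < m) (hpm : p.Coprime m)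
    (h : ∀ q, q.Prime → q ∣ m → q = 2 ∨ q = 3 ∨ q = 5) : TateAlgebraic p m := by
  intro s hs hs0
  obtain ⟨N, hN, hpN, H⟩ := H916Y.all235 hp hm hpm h hs hs0
  exact ⟨N, hN, hpN, H (N * m) rfl⟩

theorem tate237 (hp : p.Prime) {m : ℕ} (hm : 0 < m) (hpm : p.Coprime m)
    (h : ∀ q, q.Prime → q ∣ m → q = 2 ∨ q = 3 ∨ q = 7) : TateAlgebraic p m := by
  intro s hs hs0
  obtain ⟨N, hN, hpN, H⟩ := H916Y.all237 hp hm hpm h hs hs0
  exact ⟨N, hN, hpN, H (N * m) rfl⟩

theorem tate2311 (hp : p.Prime) {m : ℕ} (hm : 0 < m) (h4 : ¬ 4 ∣ m) (hpm : p.Coprime m)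
    (h : ∀ q, q.Prime → q ∣ m → q = 2 ∨ q = 3 ∨ q = 11) : TateAlgebraic p m := by
  intro s hs hs0
  obtain ⟨N, hN, hpN, H⟩ := H916Y.all2311 hp hm h4 hpm h hs hs0
  exact ⟨N, hN, hpN, H (N * m) rfl⟩

theorem tate2313 (hp : p.Prime) {m : ℕ} (hm : 0 < m) (h4 : ¬ 4 ∣ m) (hpm : p.Coprime m)
    (h : ∀ q, q.Prime → q ∣ m → q = 2 ∨ q = 3 ∨ q = 13) : TateAlgebraic p m := by
  intro s hs hs0
  obtain ⟨N, hN, hpN, H⟩ := H916Y.all2313 hp hm h4 hpm h hs hs0
  exact ⟨N, hN, hpN, H (N * m) rfl⟩

theorem primes_of (M : ℕ) (p q r : ℕ) (hp : p.Prime) (hq : q.Prime) (hr : r.Prime) (a b c : ℕ)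
    (h : M = p ^ a * q ^ b * r ^ c) : ∀ x : ℕ, x.Prime → x ∣ M → x = p ∨ x = q ∨ x = r := by
  intro x hx hxM
  rw [h] at hxM
  rcases (Nat.Prime.dvd_mul hx).1 hxM with h1 | h1
  · rcases (Nat.Prime.dvd_mul hx).1 h1 with h2 | h2
    · left; exact (Nat.prime_dvd_prime_iff_eq hx hp).1 (hx.dvd_of_dvd_pow h2)
    · right; left; exact (Nat.prime_dvd_prime_iff_eq hx hq).1 (hx.dvd_of_dvd_pow h2)
  · right; right; exact (Nat.prime_dvd_prime_iff_eq hx hr).1 (hx.dvd_of_dvd_pow h1)

theorem coprime_mod (M : ℕ) : p.Coprime M ↔ (p % M).Coprime M := by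
  unfold Nat.Coprime
  rw [← Nat.gcd_rec, Nat.gcd_comm]

theorem neg_one_of {M : ℕ} (j : ℕ) (h : M ∣ p ^ j + 1) : (p : ZMod M) ^ j = -1 := by
  have h1 : ((p ^ j + 1 : ℕ) : ZMod M) = 0 := (ZMod.natCast_eq_zero_iff _ _).2 h
  push_cast at h1
  linear_combination h1

/-- the classes of a list, or supersingular -/
theorem full_or_super {M : ℕ} (hM : 2 < M) (hp : p.Coprime M)
    (L : List (ℕ × ℕ × List ℕ × List (ℕ × ℕ))) (h : inst M L = true)
    (hall : ∀ x < M, Nat.Coprime x M → x ∈ L.map Prod.fst ∨ ∃ j < 7, (x ^ j + 1) % M = 0) :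
    FullSlopes p M := by
  have : NeZero M := ⟨by omega⟩
  rcases hall (p % M) (Nat.mod_lt _ (by omega)) ((coprime_mod M).1 hp) with h1 | ⟨j, -, h1⟩
  · exact full_of_inst (by omega) hp L h h1
  · refine fullSlopes_super hM hp (neg_one_of j ?_)
    apply Nat.dvd_of_mod_eq_zero
    rw [← h1, Nat.add_mod, Nat.pow_mod, ← Nat.add_mod]

/-- the seven degrees -/
theorem seven (hp : p.Prime) {M : ℕ}
    (hM : M = 16 ∨ M = 20 ∨ M = 22 ∨ M = 24 ∨ M = 30 ∨ M = 36 ∨ M = 42) (hpM : p.Coprime M) :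
    GoodP p M := by
  have h2 : Nat.Prime 2 := by norm_num
  have h3 : Nat.Prime 3 := by norm_num
  have h5 : Nat.Prime 5 := by norm_num
  have h7 : Nat.Prime 7 := by norm_num
  have h11 : Nat.Prime 11 := by norm_num
  rcases hM with rfl | rfl | rfl | rfl | rfl | rfl | rfl
  · exact ⟨by norm_num, hpM, full_or_super (by norm_num) hpM L16 inst_16 (by decide +kernel),
      tate235 hp (by norm_num) hpM (primes_of 16 2 3 5 h2 h3 h5 4 0 0 (by norm_num))⟩
  · exact ⟨by norm_num, hpM, full_or_super (by norm_num) hpM L20 inst_20 (by decide +kernel),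
      tate235 hp (by norm_num) hpM (primes_of 20 2 3 5 h2 h3 h5 2 0 1 (by norm_num))⟩
  · exact ⟨by norm_num, hpM, full_or_super (by norm_num) hpM L22 inst_22 (by decide +kernel),
      tate2311 hp (by norm_num) (by norm_num) hpM
        (primes_of 22 2 3 11 h2 h3 h11 1 0 1 (by norm_num))⟩
  · exact ⟨by norm_num, hpM, full_or_super (by norm_num) hpM L24 inst_24 (by decide +kernel),
      tate235 hp (by norm_num) hpM (primes_of 24 2 3 5 h2 h3 h5 3 1 0 (by norm_num))⟩
  · exact ⟨by norm_num, hpM, full_or_super (by norm_num) hpM L30 inst_30 (by decide +kernel),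
      tate235 hp (by norm_num) hpM (primes_of 30 2 3 5 h2 h3 h5 1 1 1 (by norm_num))⟩
  · exact ⟨by norm_num, hpM, full_or_super (by norm_num) hpM L36 inst_36 (by decide +kernel),
      tate235 hp (by norm_num) hpM (primes_of 36 2 3 5 h2 h3 h5 2 2 0 (by norm_num))⟩
  · exact ⟨by norm_num, hpM, full_or_super (by norm_num) hpM L42 inst_42 (by decide +kernel),
      tate237 hp (by norm_num) hpM (primes_of 42 2 3 7 h2 h3 h7 1 1 1 (by norm_num))⟩

/-- a single residue class -/
theorem single {M : ℕ} (hM : 2 < M) (L : List (ℕ × ℕ × List ℕ × List (ℕ × ℕ)))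
    (h : inst M L = true) (hall : ∀ x ∈ L.map Prod.fst, Nat.Coprime x M)
    (hr : p % M ∈ L.map Prod.fst) : p.Coprime M ∧ FullSlopes p M := by
  have hp : p.Coprime M := (coprime_mod M).2 (hall _ hr)
  exact ⟨hp, full_of_inst (by omega) hp L h hr⟩

/-- The residue classes of `p` modulo some further degrees. -/
def extraClasses : List (ℕ × List ℕ) :=
  [(26, [3, 9]), (28, [5, 13, 17]), (32, [3, 11, 19, 27]), (40, [3, 27]), (45, [2]),
    (48, [5, 7, 13, 29, 37]), (54, [7, 13, 25, 31, 43, 49]), (66, [7, 13, 19, 61]),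
    (90, [23, 47, 77, 83])]

theorem extra (hp : p.Prime) {M : ℕ} {l : List ℕ} (he : (M, l) ∈ extraClasses)
    (hr : p % M ∈ l) : GoodP p M := by
  have h2 : Nat.Prime 2 := by norm_num
  have h3 : Nat.Prime 3 := by norm_num
  have h5 : Nat.Prime 5 := by norm_num
  have h7 : Nat.Prime 7 := by norm_num
  have h11 : Nat.Prime 11 := by norm_num
  have h13 : Nat.Prime 13 := by norm_num
  simp only [extraClasses, List.mem_cons, Prod.mk.injEq, List.not_mem_nil, or_false] at he
  rcases he with ⟨rfl, rfl⟩ | ⟨rfl, rfl⟩ | ⟨rfl, rfl⟩ | ⟨rfl, rfl⟩ | ⟨rfl, rfl⟩ | ⟨rfl, rfl⟩ |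
    ⟨rfl, rfl⟩ | ⟨rfl, rfl⟩ | ⟨rfl, rfl⟩
  · obtain ⟨h, h'⟩ := single (by norm_num) L26 inst_26 (by decide +kernel) hr
    exact ⟨by norm_num, h, h', tate2313 hp (by norm_num) (by norm_num) h
      (primes_of 26 2 3 13 h2 h3 h13 1 0 1 (by norm_num))⟩
  · obtain ⟨h, h'⟩ := single (by norm_num) L28 inst_28 (by decide +kernel) hr
    exact ⟨by norm_num, h, h', tate237 hp (by norm_num) h
      (primes_of 28 2 3 7 h2 h3 h7 2 0 1 (by norm_num))⟩
  · obtain ⟨h, h'⟩ := single (by norm_num) L32 inst_32 (by decide +kernel) hr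
    exact ⟨by norm_num, h, h', tate235 hp (by norm_num) h
      (primes_of 32 2 3 5 h2 h3 h5 5 0 0 (by norm_num))⟩
  · obtain ⟨h, h'⟩ := single (by norm_num) L40 inst_40 (by decide +kernel) hr
    exact ⟨by norm_num, h, h', tate235 hp (by norm_num) h
      (primes_of 40 2 3 5 h2 h3 h5 3 0 1 (by norm_num))⟩
  · obtain ⟨h, h'⟩ := single (by norm_num) L45 inst_45 (by decide +kernel) hr
    exact ⟨by norm_num, h, h', tate235 hp (by norm_num) h
      (primes_of 45 2 3 5 h2 h3 h5 0 2 1 (by norm_num))⟩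
  · obtain ⟨h, h'⟩ := single (by norm_num) L48 inst_48 (by decide +kernel) hr
    exact ⟨by norm_num, h, h', tate235 hp (by norm_num) h
      (primes_of 48 2 3 5 h2 h3 h5 4 1 0 (by norm_num))⟩
  · obtain ⟨h, h'⟩ := single (by norm_num) L54 inst_54 (by decide +kernel) hr
    exact ⟨by norm_num, h, h', tate235 hp (by norm_num) h
      (primes_of 54 2 3 5 h2 h3 h5 1 3 0 (by norm_num))⟩
  · obtain ⟨h, h'⟩ := single (by norm_num) L66 inst_66 (by decide +kernel) hr
    exact ⟨by norm_num, h, h', tate2311 hp (by norm_num) (by norm_num) h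
      (primes_of 66 2 3 11 h2 h3 h11 1 1 1 (by norm_num))⟩
  · obtain ⟨h, h'⟩ := single (by norm_num) L90 inst_90 (by decide +kernel) hr
    exact ⟨by norm_num, h, h', tate235 hp (by norm_num) h
      (primes_of 90 2 3 5 h2 h3 h5 1 2 1 (by norm_num))⟩

/-- The degrees `m` and characteristics `p` of the theorem: `m` divides one of the numbers
`16, 20, 22, 24, 30, 36, 42`, or `m` divides `p ^ j + 1` for some `j`, or `m` divides one of the
degrees in the list `extraClasses` and `p` lies in one of the residue classes given there. -/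
def Covered (p m : ℕ) : Prop :=
  (∃ M : ℕ, (M = 16 ∨ M = 20 ∨ M = 22 ∨ M = 24 ∨ M = 30 ∨ M = 36 ∨ M = 42) ∧ m ∣ M) ∨
    (∃ j : ℕ, m ∣ p ^ j + 1) ∨
      ∃ (M : ℕ) (l : List ℕ), (M, l) ∈ extraClasses ∧ m ∣ M ∧ p % M ∈ l

theorem of_good (m : ℕ) {M : ℕ} (hmM : m ∣ M) (h : GoodP p M) {s : Multiset (ZMod m)}
    (hs : IsCharacter m s) (c : ℕ) : Supported p m c s ↔ Effective p m s c :=
  finalP hmM h.1 h.2.1 h.2.2.1 h.2.2.2 hs c

theorem dvd_left {m a b : ℕ} (hp : p.Prime) (hpm : ¬ p ∣ m) (k : ℕ) (h : m ∣ p ^ k * b) : m ∣ b :=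
  ((Nat.Coprime.pow_left k ((hp.coprime_iff_not_dvd).2 hpm)).symm).dvd_of_dvd_mul_left h

/-- every `m` dividing one of the seven degrees divides a degree prime to `p`, or is
supersingular -/
theorem seven_or (hp : p.Prime) {m M : ℕ} (hpm : ¬ p ∣ m)
    (hM : M = 16 ∨ M = 20 ∨ M = 22 ∨ M = 24 ∨ M = 30 ∨ M = 36 ∨ M = 42) (hmM : m ∣ M) :
    (∃ j : ℕ, m ∣ p ^ j + 1) ∨ ∃ M', m ∣ M' ∧ GoodP p M' := by
  have h2 : Nat.Prime 2 := by norm_num
  have h3 : Nat.Prime 3 := by norm_num
  have h5 : Nat.Prime 5 := by norm_num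
  have h7 : Nat.Prime 7 := by norm_num
  have h11 : Nat.Prime 11 := by norm_num
  by_cases hpM : p ∣ M
  · have key : ∀ (k b : ℕ), M = p ^ k * b → m ∣ b := fun k b h =>
      dvd_left (a := 0) hp hpm k (h ▸ hmM)
    rcases hM with rfl | rfl | rfl | rfl | rfl | rfl | rfl
    · have hp' := primes_of 16 2 3 5 h2 h3 h5 4 0 0 (by norm_num) p hp hpM
      rcases hp' with rfl | rfl | rfl
      · have h := key 4 1 (by norm_num)
        exact Or.inl ⟨0, h.trans (one_dvd _)⟩
      · norm_num at hpM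
      · norm_num at hpM
    · have hp' := primes_of 20 2 3 5 h2 h3 h5 2 0 1 (by norm_num) p hp hpM
      rcases hp' with rfl | rfl | rfl
      · have h := key 2 5 (by norm_num)
        exact Or.inl ⟨2, h.trans (by norm_num)⟩
      · norm_num at hpM
      · have h := key 1 4 (by norm_num)
        exact Or.inr ⟨16, h.trans (by norm_num), seven hp (by norm_num) (by norm_num)⟩
    · have hp' := primes_of 22 2 3 11 h2 h3 h11 1 0 1 (by norm_num) p hp hpM
      rcases hp' with rfl | rfl | rfl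
      · have h := key 1 11 (by norm_num)
        exact Or.inl ⟨5, h.trans (by norm_num)⟩
      · norm_num at hpM
      · have h := key 1 2 (by norm_num)
        exact Or.inl ⟨0, h.trans (by norm_num)⟩
    · have hp' := primes_of 24 2 3 5 h2 h3 h5 3 1 0 (by norm_num) p hp hpM
      rcases hp' with rfl | rfl | rfl
      · have h := key 3 3 (by norm_num)
        exact Or.inl ⟨1, h.trans (by norm_num)⟩
      · have h := key 1 8 (by norm_num)
        exact Or.inr ⟨16, h.trans (by norm_num), seven hp (by norm_num) (by norm_num)⟩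
      · norm_num at hpM
    · have hp' := primes_of 30 2 3 5 h2 h3 h5 1 1 1 (by norm_num) p hp hpM
      rcases hp' with rfl | rfl | rfl
      · have h := key 1 15 (by norm_num)
        obtain ⟨e, e'⟩ := single (p := 2) (by norm_num) L15 inst_15 (by decide +kernel)
          (by decide +kernel)
        exact Or.inr ⟨15, h, by norm_num, e, e', tate235 hp (by norm_num) e
          (primes_of 15 2 3 5 h2 h3 h5 0 1 1 (by norm_num))⟩
      · have h := key 1 10 (by norm_num)
        exact Or.inr ⟨20, h.trans (by norm_num), seven hp (by norm_num) (by norm_num)⟩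
      · have h := key 1 6 (by norm_num)
        exact Or.inl ⟨1, h.trans (by norm_num)⟩
    · have hp' := primes_of 36 2 3 5 h2 h3 h5 2 2 0 (by norm_num) p hp hpM
      rcases hp' with rfl | rfl | rfl
      · have h := key 2 9 (by norm_num)
        exact Or.inl ⟨3, h.trans (by norm_num)⟩
      · have h := key 2 4 (by norm_num)
        exact Or.inl ⟨1, h.trans (by norm_num)⟩
      · norm_num at hpM
    · have hp' := primes_of 42 2 3 7 h2 h3 h7 1 1 1 (by norm_num) p hp hpM
      rcases hp' with rfl | rfl | rfl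
      · have h := key 1 21 (by norm_num)
        obtain ⟨e, e'⟩ := single (p := 2) (by norm_num) L21 inst_21 (by decide +kernel)
          (by decide +kernel)
        exact Or.inr ⟨21, h, by norm_num, e, e', tate237 hp (by norm_num) e
          (primes_of 21 2 3 7 h2 h3 h7 0 1 1 (by norm_num))⟩
      · have h := key 1 14 (by norm_num)
        exact Or.inl ⟨3, h.trans (by norm_num)⟩
      · have h := key 1 6 (by norm_num)
        exact Or.inr ⟨24, h.trans (by norm_num), seven hp (by norm_num) (by norm_num)⟩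
  · exact Or.inr ⟨M, hmM, seven hp hM ((hp.coprime_iff_not_dvd).2 hpM)⟩

/-- **Main theorem.** -/
theorem main_all (hp : p.Prime) {m : ℕ} (hpm : ¬ p ∣ m) (h : Covered p m)
    {s : Multiset (ZMod m)} (hs : IsCharacter m s) (c : ℕ) :
    Supported p m c s ↔ Effective p m s c := by
  have hm0 : 0 < m := Nat.pos_of_ne_zero (by rintro rfl; exact hpm (dvd_zero p))
  have hcop : p.Coprime m := (hp.coprime_iff_not_dvd).2 hpm
  have small : m < 4 → ∃ j : ℕ, m ∣ p ^ j + 1 ∨ m ∣ 24 := by
    intro h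
    refine ⟨0, Or.inr ?_⟩
    interval_cases m <;> norm_num
  have hsuper : 4 ≤ m → (∃ j : ℕ, m ∣ p ^ j + 1) → (Supported p m c s ↔ Effective p m s c) := by
    rintro h4 ⟨j, hj⟩
    have : NeZero m := ⟨by omega⟩
    have hj' := neg_one_of j hj
    exact of_good m dvd_rfl ⟨by omega, hcop, fullSlopes_super (by omega) hcop hj',
      tateAlgebraic_super h4 hcop hj'⟩ hs c
  rcases Nat.lt_or_ge m 4 with h4 | h4
  · -- `m ≤ 3`
    have h24 : m ∣ 24 := by interval_cases m <;> norm_num
    by_cases hp24 : p ∣ 24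
    · have hp' := primes_of 24 2 3 5 (by norm_num) (by norm_num) (by norm_num) 3 1 0
        (by norm_num) p hp hp24
      rcases hp' with rfl | rfl | rfl
      · -- `m = 1` or `m = 3`
        obtain ⟨e, e'⟩ := single (p := 2) (by norm_num) L15 inst_15 (by decide +kernel)
          (by decide +kernel)
        have hm15 : m ∣ 15 := by
          interval_cases m
          · norm_num
          · norm_num at hpm
          · norm_num
        exact of_good m hm15 ⟨by norm_num, e, e', tate235 hp (by norm_num) e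
          (primes_of 15 2 3 5 (by norm_num) (by norm_num) (by norm_num) 0 1 1 (by norm_num))⟩ hs c
      · have hm16 : m ∣ 16 := by
          interval_cases m
          · norm_num
          · norm_num
          · norm_num at hpm
        exact of_good m hm16 (seven hp (by norm_num) (by norm_num)) hs c
      · norm_num at hp24
    · exact of_good m h24 (seven hp (by norm_num) ((hp.coprime_iff_not_dvd).2 hp24)) hs c
  · rcases h with ⟨M, hM, hmM⟩ | hsup | ⟨M, l, he, hmM, hr⟩
    · rcases seven_or hp hpm hM hmM with h1 | ⟨M', h1, h2⟩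
      · exact hsuper h4 h1
      · exact of_good m h1 h2 hs c
    · exact hsuper h4 hsup
    · exact of_good m hmM (extra hp he hr) hs c

end Pool.Agent.W546.FermatP
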