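import Mathlib
import Pool.Agent.H916T.Defs
import Pool.Agent.W546.Fermat.Defs

/-!
# Coniveau of characters of Fermat varieties over finite fields

Let `p` be a prime which does not divide `m`.  The primitive cohomology `H^n(X)` of the Fermat
variety `X : x_0 ^ m + ... + x_(n+1) ^ m = 0` over an algebraic closure of the field with `p`
elements splits into lines `V(s)` indexed by the tuples `s` of `n + 2` nonzero residues mod `m` with
sum zero.  Over the field with `q = p ^ f` elements, `f` the order of `p` modulo `m`, Frobenius acts
on `V(s)` by a Jacobi sum `j(s)` in the cyclotomic field of level `m`.  By the theorem of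
Stickelberger the slopes of the lines `V(t s)` (the valuations of the conjugates of `j(s)`,
normalised such that `q` has valuation one) are the numbers `slope` below.
-/

set_option autoImplicit false

namespace Pool.Agent.W546.FermatP

open Pool.Agent.W546.Fermat (IsCharacter)
open Pool.Agent.H916T

/-- The sum of the representatives in `{1, ..., m - 1}` of the residues `p ^ j * t * a`, where
`a ∈ s` and `0 ≤ j < f`, `f` being the order of `p` modulo `m`. -/
noncomputable def slopeSum (p m : ℕ) (s : Multiset (ZMod m)) (t : (ZMod m)ˣ) : ℕ :=
  ∑ j ∈ Finset.range (orderOf (p : ZMod m)),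
    (s.map fun a => ((p : ZMod m) ^ j * ((t : ZMod m) * a)).val).sum

/-- The slope of Frobenius on the line `V(t s)`. -/
noncomputable def slope (p m : ℕ) (s : Multiset (ZMod m)) (t : (ZMod m)ˣ) : ℚ :=
  (slopeSum p m s t : ℚ) / ((orderOf (p : ZMod m) : ℚ) * m) - 1

/-- The eigenvalues of Frobenius on the lines `V(t s)`, divided by `q ^ c`, and their inverses,
multiplied by `q ^ (n - c)`, are algebraic integers, `n = |s| - 2` being the dimension of the Fermat
variety; that is, the twist of `V(s)` by `c` is effective of weight `n - 2 c`. -/
def Effective (p m : ℕ) (s : Multiset (ZMod m)) (c : ℕ) : Prop :=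
  ∀ t : (ZMod m)ˣ, (c : ℚ) ≤ slope p m s t ∧ slope p m s t ≤ (Multiset.card s : ℚ) - 2 - c

/-- The character of degree `N * m` which is the pull back of the character `s` of degree `m` along
the map `(x_i) ↦ (x_i ^ N)` of Fermat varieties. -/
def raise (N m : ℕ) (s : Multiset (ZMod m)) : Multiset (ZMod (N * m)) :=
  s.map fun b => ((N * b.val : ℕ) : ZMod (N * m))

/-- The characters whose cycle classes are used: the closure under union and under removing a pair
`{a, -a}` of the pairs, of the Tate characters of Fermat surfaces and of the standard characters of
Aoki and Shioda (see `Pool.Agent.H916T.Defs`). -/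
def Algebraic (p m : ℕ) (s : Multiset (ZMod m)) : Prop :=
  Generated m (fun t => SurfaceTate p m t ∨ ∃ q : ℕ, q.Prime ∧ q ∣ m ∧ Standard q m t) s

/-- `Supported p m c s`: the line `V(s)` of the cohomology of the Fermat variety of degree `m` in
characteristic `p` is supported in codimension `c`, by the following rules.
* `zero`: every character is supported in codimension `0`.
* `join`: `V(s + s')` is the image of `V(s) ⊗ V(s')` under the correspondence given by the lines
  that join a point of the Fermat variety of `s` to a point of the Fermat variety of `s'` inside the
  Fermat variety of `s + s'`; this raises the codimension of the support by one.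
* `transfer`: the algebraic Tate classes of the character `s' - s` (that is, `s'` together with the
  negatives of `s`) give a correspondence which maps `V(s)` onto `V(s')`, and the codimension of the
  support changes by `(|s'| - |s|) / 2 = c' - c`.
* `pull`, `push`: the degree may be raised, by pull back along the map `(x_i) ↦ (x_i ^ N)`, and
  lowered, by push forward. -/
inductive Supported (p : ℕ) : (m : ℕ) → ℕ → Multiset (ZMod m) → Prop
  | zero (m : ℕ) (s : Multiset (ZMod m)) (hs : IsCharacter m s) : Supported p m 0 s
  | join (m c c' : ℕ) (s s' : Multiset (ZMod m)) (h : Supported p m c s)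
      (h' : Supported p m c' s') : Supported p m (c + c' + 1) (s + s')
  | transfer (m c c' : ℕ) (s s' : Multiset (ZMod m)) (h : Supported p m c s)
      (hs' : IsCharacter m s') (halg : Algebraic p m (s' + s.map Neg.neg))
      (htwist : Multiset.card s' + 2 * c = Multiset.card s + 2 * c') : Supported p m c' s'
  | pull (N m c : ℕ) (s : Multiset (ZMod m)) (hN : 0 < N) (hpN : p.Coprime N)
      (h : Supported p m c s) : Supported p (N * m) c (raise N m s)
  | push (N m c : ℕ) (s : Multiset (ZMod m)) (hN : 0 < N) (hpN : p.Coprime N)
      (hs : IsCharacter m s) (h : Supported p (N * m) c (raise N m s)) : Supported p m c s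

end Pool.Agent.W546.FermatP
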