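import Mathlib
import Pool.Agent.W546.FermatP.Defs
import Pool.Agent.W546.Fermat.Core
import Pool.Agent.H916Y.Fams3

/-!
# All characters are supported in the codimension predicted by their slopes
-/

set_option autoImplicit false
set_option linter.unusedSectionVars false
set_option linter.unusedVariables false

namespace Pool.Agent.W546.FermatP

open Pool.Agent.H916T Pool.Agent.H916R2
open Pool.Agent.W546.Fermat (IsCharacter total total_add total_neg total_neg_unit val_neg_add
  dvd_total)

variable {m p : ℕ}

/-- the unit given by `p` -/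
noncomputable def up (hp : p.Coprime m) : (ZMod m)ˣ := (H916T.isUnit_p hp).unit

theorem up_val (hp : p.Coprime m) : ((up hp : (ZMod m)ˣ) : ZMod m) = (p : ZMod m) :=
  IsUnit.unit_spec _

theorem slopeSum_eq (hp : p.Coprime m) (s : Multiset (ZMod m)) (t : (ZMod m)ˣ) :
    slopeSum p m s t = ∑ j ∈ Finset.range (orderOf (p : ZMod m)), total m s (up hp ^ j * t) := by
  unfold slopeSum total
  refine Finset.sum_congr rfl fun j _ => ?_
  congr 1
  refine Multiset.map_congr rfl fun a _ => ?_
  rw [Units.val_mul, Units.val_pow_eq_pow_val, up_val, mul_assoc]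

theorem slopeSum_add (s s' : Multiset (ZMod m)) (t : (ZMod m)ˣ) :
    slopeSum p m (s + s') t = slopeSum p m s t + slopeSum p m s' t := by
  unfold slopeSum
  rw [← Finset.sum_add_distrib]
  refine Finset.sum_congr rfl fun j _ => ?_
  rw [Multiset.map_add, Multiset.sum_add]

theorem slopeSum_neg [NeZero m] (hp : p.Coprime m) (s : Multiset (ZMod m)) (h0 : (0 : ZMod m) ∉ s)
    (t : (ZMod m)ˣ) : slopeSum p m (s.map Neg.neg) t + slopeSum p m s t =
      orderOf (p : ZMod m) * (m * Multiset.card s) := by
  rw [slopeSum_eq hp, slopeSum_eq hp, ← Finset.sum_add_distrib]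
  rw [Finset.sum_congr rfl fun j _ => total_neg s h0 _]
  rw [Finset.sum_const, Finset.card_range, smul_eq_mul]

theorem slopeSum_neg_unit [NeZero m] (hp : p.Coprime m) (s : Multiset (ZMod m))
    (h0 : (0 : ZMod m) ∉ s) (t : (ZMod m)ˣ) : slopeSum p m s (-t) + slopeSum p m s t =
      orderOf (p : ZMod m) * (m * Multiset.card s) := by
  rw [slopeSum_eq hp, slopeSum_eq hp, ← Finset.sum_add_distrib]
  have h1 : ∀ j ∈ Finset.range (orderOf (p : ZMod m)),
      total m s (up hp ^ j * -t) + total m s (up hp ^ j * t) = m * Multiset.card s := by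
    intro j _
    rw [mul_neg]
    exact total_neg_unit s h0 _
  rw [Finset.sum_congr rfl h1, Finset.sum_const, Finset.card_range, smul_eq_mul]

/-- the sum does not change when the unit is multiplied by `p` -/
theorem slopeSum_mul (hp : p.Coprime m) (s : Multiset (ZMod m)) (t : (ZMod m)ˣ) :
    slopeSum p m s (up hp * t) = slopeSum p m s t := by
  rw [slopeSum_eq hp, slopeSum_eq hp]
  have h1 : ∀ j, total m s (up hp ^ j * (up hp * t)) = total m s (up hp ^ (j + 1) * t) := by
    intro j
    rw [pow_succ, mul_assoc]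
  rw [Finset.sum_congr rfl fun j _ => h1 j]
  have h2 := Finset.sum_range_succ (fun j => total m s (up hp ^ j * t)) (orderOf (p : ZMod m))
  have h3 := Finset.sum_range_succ' (fun j => total m s (up hp ^ j * t)) (orderOf (p : ZMod m))
  have h4 : up hp ^ orderOf (p : ZMod m) = 1 := by
    apply Units.ext
    rw [Units.val_pow_eq_pow_val, up_val, H916T.pow_order, Units.val_one]
  rw [h2, h4, pow_zero] at h3
  omega

theorem slopeSum_pow (hp : p.Coprime m) (s : Multiset (ZMod m)) (t : (ZMod m)ˣ) (j : ℕ) :
    slopeSum p m s (up hp ^ j * t) = slopeSum p m s t := by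
  induction j with
  | zero => rw [pow_zero, one_mul]
  | succ j ih => rw [pow_succ', mul_assoc, slopeSum_mul, ih]

theorem dvd_slopeSum [NeZero m] (hp : p.Coprime m) (s : Multiset (ZMod m)) (hs : s.sum = 0)
    (t : (ZMod m)ˣ) : m ∣ slopeSum p m s t := by
  rw [slopeSum_eq hp]
  exact Finset.dvd_sum fun j _ => dvd_total s hs _

theorem isTate_iff (s : Multiset (ZMod m)) : IsTate p m s ↔ (0 : ZMod m) ∉ s ∧
    Even (Multiset.card s) ∧ s.sum = 0 ∧
      ∀ t, 2 * slopeSum p m s t = orderOf (p : ZMod m) * (m * Multiset.card s) := Iff.rfl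

/-- Effectivity in terms of the sums of representatives. -/
theorem effective_iff [NeZero m] (hp : p.Coprime m) {s : Multiset (ZMod m)} (hs : IsCharacter m s)
    (c : ℕ) : Effective p m s c ↔
      ∀ t, orderOf (p : ZMod m) * (m * (c + 1)) ≤ slopeSum p m s t := by
  have hf : 0 < orderOf (p : ZMod m) := H916T.order_pos hp
  have hm : 0 < m := NeZero.pos m
  have hfm : (0 : ℚ) < (orderOf (p : ZMod m) : ℚ) * m := by positivity
  have key : ∀ t, (c : ℚ) ≤ slope p m s t ↔
      orderOf (p : ZMod m) * (m * (c + 1)) ≤ slopeSum p m s t := by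
    intro t
    unfold slope
    rw [le_sub_iff_add_le, le_div_iff₀ hfm]
    rw [show ((c : ℚ) + 1) * ((orderOf (p : ZMod m) : ℚ) * m) =
      ((orderOf (p : ZMod m) * (m * (c + 1)) : ℕ) : ℚ) by push_cast; ring]
    exact Nat.cast_le
  have hdual : ∀ t, slope p m s (-t) + slope p m s t = (Multiset.card s : ℚ) - 2 := by
    intro t
    have h1 := slopeSum_neg_unit hp s hs.2.1 t
    have h2 : (slopeSum p m s (-t) : ℚ) + slopeSum p m s t =
        (orderOf (p : ZMod m) : ℚ) * m * (Multiset.card s : ℚ) := by
      rw [← Nat.cast_add, h1]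
      push_cast
      ring
    unfold slope
    have h3 : (slopeSum p m s (-t) : ℚ) / ((orderOf (p : ZMod m) : ℚ) * m) +
        (slopeSum p m s t : ℚ) / ((orderOf (p : ZMod m) : ℚ) * m) = (Multiset.card s : ℚ) := by
      rw [← add_div, h2]
      field_simp
    linarith
  constructor
  · intro h t
    exact (key t).1 (h t).1
  · intro h t
    refine ⟨(key t).2 (h t), ?_⟩
    have h1 := (key (-t)).2 (h (-t))
    have h2 := hdual t
    linarith

/-- Every function with values in `{0, ..., f}` on the units, invariant under `p` and with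
`g t + g (-t) = f`, comes from a Fermat curve. -/
def FullSlopes (p m : ℕ) : Prop :=
  ∀ g : (ZMod m)ˣ → ℕ, (∀ t t' : (ZMod m)ˣ, (t' : ZMod m) = (p : ZMod m) * t → g t' = g t) →
    (∀ t, g t + g (-t) = orderOf (p : ZMod m)) →
    ∃ s : Multiset (ZMod m), Multiset.card s = 3 ∧ (0 : ZMod m) ∉ s ∧ s.sum = 0 ∧
      ∀ t, slopeSum p m s t = m * (g t + orderOf (p : ZMod m))

/-- a representative of the orbit of `t` under `p` -/
noncomputable def rep (p : ℕ) (t : (ZMod m)ˣ) : ℕ :=
  sInf (Set.range fun j : ℕ => ((p : ZMod m) ^ j * (t : ZMod m)).val)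

theorem rep_mul (hp : p.Coprime m) (t : (ZMod m)ˣ) (t' : (ZMod m)ˣ)
    (h : (t' : ZMod m) = (p : ZMod m) * t) : rep p t' = rep p t := by
  unfold rep
  congr 1
  ext x
  constructor
  · rintro ⟨j, rfl⟩
    refine ⟨j + 1, ?_⟩
    change ((p : ZMod m) ^ (j + 1) * (t : ZMod m)).val = ((p : ZMod m) ^ j * (t' : ZMod m)).val
    rw [h, pow_succ]
    congr 1
    ring
  · rintro ⟨j, rfl⟩
    have hpo := H916T.pow_order (m := m) p
    have hf : 0 < orderOf (p : ZMod m) ∨ orderOf (p : ZMod m) = 0 := by omega
    rcases hf with hf | hf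
    · refine ⟨j + (orderOf (p : ZMod m) - 1), ?_⟩
      change ((p : ZMod m) ^ (j + (orderOf (p : ZMod m) - 1)) * (t' : ZMod m)).val =
        ((p : ZMod m) ^ j * (t : ZMod m)).val
      rw [h]
      congr 1
      have e : (p : ZMod m) ^ (j + (orderOf (p : ZMod m) - 1)) * ((p : ZMod m) * (t : ZMod m)) =
          (p : ZMod m) ^ j * ((p : ZMod m) ^ ((orderOf (p : ZMod m) - 1) + 1) * (t : ZMod m)) := by
        rw [pow_add, pow_succ]
        ring
      rw [e, Nat.sub_add_cancel hf, hpo, one_mul]
    · -- infinite order cannot occur for `m ≠ 0`; for `m = 0` we have `p = 1`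
      by_cases hm : m = 0
      · subst hm
        have hp1 : p = 1 := by simpa using hp
        subst hp1
        simp at hf
      · have : NeZero m := ⟨hm⟩
        have := H916T.order_pos hp
        omega

theorem rep_neg_eq [NeZero m] (hp : p.Coprime m) (t : (ZMod m)ˣ) (h : rep p t = rep p (-t)) :
    ∃ j : ℕ, (p : ZMod m) ^ j = -1 := by
  unfold rep at h
  have h1 := Nat.sInf_mem (Set.range_nonempty fun j : ℕ => ((p : ZMod m) ^ j * (t : ZMod m)).val)
  have h2 := Nat.sInf_mem (Set.range_nonempty
    fun j : ℕ => ((p : ZMod m) ^ j * ((-t : (ZMod m)ˣ) : ZMod m)).val)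
  obtain ⟨i, hi⟩ := h1
  obtain ⟨j, hj⟩ := h2
  have hij : ((p : ZMod m) ^ i * (t : ZMod m)).val =
      ((p : ZMod m) ^ j * ((-t : (ZMod m)ˣ) : ZMod m)).val := by
    rw [show ((p : ZMod m) ^ i * (t : ZMod m)).val = _ from hi, h]
    exact hj.symm
  have h3 := ZMod.val_injective m hij
  rw [Units.val_neg] at h3
  have h4 : (p : ZMod m) ^ i = -(p : ZMod m) ^ j := by
    have h5 : ((p : ZMod m) ^ i + (p : ZMod m) ^ j) * (t : ZMod m) = 0 := by
      linear_combination h3
    have h6 := (Units.mul_left_eq_zero t).1 h5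
    linear_combination h6
  have hf := H916T.order_pos hp
  set f := orderOf (p : ZMod m) with hfdef
  have hpo : (p : ZMod m) ^ f = 1 := H916T.pow_order p
  refine ⟨i + (f - 1) * j, ?_⟩
  rw [pow_add, h4]
  have h7 : (p : ZMod m) ^ j * (p : ZMod m) ^ ((f - 1) * j) = 1 := by
    rw [← pow_add]
    have e : j + (f - 1) * j = f * j := by
      obtain ⟨f', hf'⟩ : ∃ f', f = f' + 1 := ⟨f - 1, by omega⟩
      rw [hf', Nat.add_sub_cancel]
      ring
    rw [e, pow_mul, hpo, one_pow]
  rw [neg_mul, h7]

theorem even_order [NeZero m] (hm : 2 < m) {j : ℕ} (h : (p : ZMod m) ^ j = -1) :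
    Even (orderOf (p : ZMod m)) := by
  have h1 : (p : ZMod m) ^ (2 * j) = 1 := by
    rw [mul_comm, pow_mul, h]
    ring
  have h2 := orderOf_dvd_of_pow_eq_one h1
  by_contra hodd
  have h3 : (orderOf (p : ZMod m)).Coprime 2 := by
    exact (Nat.not_even_iff_odd.1 hodd).coprime_two_right
  have h4 := h3.dvd_of_dvd_mul_left h2
  have h5 := orderOf_dvd_iff_pow_eq_one.1 h4
  rw [h5] at h
  have h6 : ((2 : ℕ) : ZMod m) = 0 := by
    push_cast
    linear_combination h
  rw [ZMod.natCast_eq_zero_iff] at h6
  exact absurd (Nat.le_of_dvd (by norm_num) h6) (by omega)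

theorem layersP [NeZero m] (hm : 2 < m) (hp : p.Coprime m) (hfull : FullSlopes p m) (k : ℕ) :
    ∀ S : (ZMod m)ˣ → ℕ, (∀ t t' : (ZMod m)ˣ, (t' : ZMod m) = (p : ZMod m) * t → S t' = S t) →
    (∀ t, S t + S (-t) = (k + 1) * orderOf (p : ZMod m)) →
    ∃ s : Multiset (ZMod m), Multiset.card s = 3 * (k + 1) ∧ Supported p m k s ∧
      (0 : ZMod m) ∉ s ∧ s.sum = 0 ∧
      ∀ t, slopeSum p m s t = m * (S t + (k + 1) * orderOf (p : ZMod m)) := by
  have hchar : ∀ s : Multiset (ZMod m), Multiset.card s = 3 → (0 : ZMod m) ∉ s → s.sum = 0 →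
      IsCharacter m s := by
    intro s h1 h2 h3
    refine ⟨?_, h2, h3⟩
    rintro rfl
    simp at h1
  set f := orderOf (p : ZMod m) with hf
  induction k with
  | zero =>
    intro S hinv hS
    obtain ⟨s, h1, h2, h3, h4⟩ := hfull S hinv (fun t => by rw [hS t]; ring)
    exact ⟨s, by rw [h1], Supported.zero m s (hchar s h1 h2 h3), h2, h3, fun t => by
      rw [h4 t]; ring⟩
  | succ k ih =>
    intro S hinv hS
    classical
    -- the values of S on opposite classes which coincide
    have hinvj : ∀ (j : ℕ) (t : (ZMod m)ˣ), S (up hp ^ j * t) = S t := by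
      intro j t
      induction j with
      | zero => rw [pow_zero, one_mul]
      | succ j ihj =>
        rw [pow_succ', mul_assoc, ← ihj]
        apply hinv
        rw [Units.val_mul, up_val]
    have hself : ∀ t, rep p t = rep p (-t) → Even f ∧ 2 * S t = (k + 1 + 1) * f := by
      intro t ht
      obtain ⟨j, hj⟩ := rep_neg_eq hp t ht
      refine ⟨even_order hm hj, ?_⟩
      have h1 : S (-t) = S t := by
        rw [← hinvj j t]
        congr 1
        apply Units.ext
        rw [Units.val_neg, Units.val_mul, Units.val_pow_eq_pow_val, up_val, hj]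
        ring
      have h2 := hS t
      rw [h1] at h2
      omega
    let g : (ZMod m)ˣ → ℕ := fun t =>
      if rep p t < rep p (-t) then min f (S t) else
        if rep p (-t) < rep p t then f - min f (S (-t)) else f / 2
    have hginv : ∀ t t' : (ZMod m)ˣ, (t' : ZMod m) = (p : ZMod m) * t → g t' = g t := by
      intro t t' h
      have h' : ((-t' : (ZMod m)ˣ) : ZMod m) = (p : ZMod m) * ((-t : (ZMod m)ˣ) : ZMod m) := by
        rw [Units.val_neg, Units.val_neg, h]
        ring
      simp only [g]
      rw [rep_mul hp t t' h, rep_mul hp (-t) (-t') h', hinv t t' h, hinv (-t) (-t') h']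
    have hg : ∀ t, g t + g (-t) = f := by
      intro t
      simp only [g, neg_neg]
      rcases lt_trichotomy (rep p t) (rep p (-t)) with h | h | h
      · rw [if_pos h, if_neg (not_lt.2 h.le), if_pos h]
        have := min_le_left f (S t)
        omega
      · obtain ⟨⟨e, he⟩, -⟩ := hself t h
        rw [if_neg (by omega), if_neg (by omega), if_neg (by omega), if_neg (by omega)]
        omega
      · rw [if_neg (by omega), if_pos h, if_pos h]
        have := min_le_left f (S (-t))
        omega
    have hle : ∀ t, g t ≤ S t := by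
      intro t
      simp only [g]
      rcases lt_trichotomy (rep p t) (rep p (-t)) with h | h | h
      · rw [if_pos h]
        exact min_le_right _ _
      · obtain ⟨-, h2⟩ := hself t h
        rw [if_neg (by omega), if_neg (by omega)]
        have h3 : (k + 1 + 1) * f = k * f + 2 * f := by ring
        rw [h3] at h2
        omega
      · rw [if_neg (by omega), if_pos h]
        have h3 := hS t
        have h4 : (k + 1 + 1) * f = k * f + 2 * f := by ring
        rw [h4] at h3
        rcases le_total f (S (-t)) with h5 | h5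
        · rw [min_eq_left h5]
          omega
        · rw [min_eq_right h5]
          omega
    obtain ⟨s, h1, h2, h3, h4⟩ := hfull g hginv hg
    obtain ⟨s', h1', hS', h2', h3', h4'⟩ := ih (fun t => S t - g t) (by
      intro t t' h
      change S t' - g t' = S t - g t
      rw [hinv t t' h, hginv t t' h]) (by
      intro t
      have e1 := hS t
      have e2 := hg t
      have e3 := hle t
      have e4 := hle (-t)
      have e5 : (k + 1 + 1) * f = (k + 1) * f + f := by ring
      change S t - g t + (S (-t) - g (-t)) = (k + 1) * f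
      omega)
    refine ⟨s' + s, ?_, ?_, ?_, ?_, ?_⟩
    · rw [Multiset.card_add, h1, h1']
      ring
    · exact Supported.join m k 0 s' s hS' (Supported.zero m s (hchar s h1 h2 h3))
    · rw [Multiset.mem_add, not_or]
      exact ⟨h2', h2⟩
    · rw [Multiset.sum_add, h3, h3', add_zero]
    · intro t
      rw [slopeSum_add, h4, h4', ← mul_add]
      congr 1
      have e3 := hle t
      have e5 : (k + 1 + 1) * f = (k + 1) * f + f := by ring
      omega

end Pool.Agent.W546.FermatP
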