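import Mathlib
import Pool.Agent.W546.FermatP.Core

/-!
# The main theorem for one degree, soundness, and the supersingular case
-/

set_option autoImplicit false
set_option linter.unusedSectionVars false
set_option linter.unusedVariables false

namespace Pool.Agent.W546.FermatP

open Pool.Agent.H916T Pool.Agent.H916R2
open Pool.Agent.W546.Fermat (IsCharacter total total_add total_neg total_neg_unit val_neg_add
  dvd_total)

variable {m p : ℕ}

theorem raise_eq (N : ℕ) (s : Multiset (ZMod m)) :
    raise N m s = s.map (iota N : ZMod m → ZMod (N * m)) := rfl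

theorem raise_add (N : ℕ) (s s' : Multiset (ZMod m)) :
    raise N m (s + s') = raise N m s + raise N m s' := Multiset.map_add _ _ _

theorem raise_neg [NeZero m] (N : ℕ) (s : Multiset (ZMod m)) :
    raise N m (s.map Neg.neg) = (raise N m s).map Neg.neg := by
  rw [raise_eq, raise_eq, Multiset.map_map, Multiset.map_map]
  refine Multiset.map_congr rfl fun a _ => ?_
  rw [Function.comp_apply, Function.comp_apply, iota_neg rfl]

theorem isCharacter_raise [NeZero m] {N : ℕ} (hN : 0 < N) {s : Multiset (ZMod m)}
    (hs : IsCharacter m s) : IsCharacter (N * m) (raise N m s) := by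
  have : NeZero N := ⟨hN.ne'⟩
  have : NeZero (N * m) := ⟨Nat.mul_ne_zero hN.ne' (NeZero.ne m)⟩
  rw [raise_eq]
  refine ⟨?_, ?_, ?_⟩
  · intro h0
    rw [Multiset.map_eq_zero] at h0
    exact hs.1 h0
  · intro h0
    obtain ⟨b, hb, hb0⟩ := Multiset.mem_map.1 h0
    exact hs.2.1 (iota_eq_zero rfl hb0 ▸ hb)
  · have h1 : ∀ s : Multiset (ZMod m),
        (s.map (iota N : ZMod m → ZMod (N * m))).sum = iota N s.sum := by
      intro s
      induction s using Multiset.induction_on with
      | empty => simp [iota_zero]
      | cons a s ih =>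
        rw [Multiset.map_cons, Multiset.sum_cons, ih, Multiset.sum_cons, iota_add rfl]
    rw [h1, hs.2.2, iota_zero]

/-- the classes of the Tate characters are algebraic after raising the degree -/
def TateAlgebraic (p m : ℕ) : Prop :=
  ∀ s : Multiset (ZMod m), IsTate p m s → s ≠ 0 →
    ∃ N : ℕ, 0 < N ∧ p.Coprime N ∧ Algebraic p (N * m) (raise N m s)

/-- **Main theorem for one degree.** -/
theorem mainP [NeZero m] (hm2 : 2 < m) (hp : p.Coprime m) (hfull : FullSlopes p m)
    (hgen : TateAlgebraic p m) {s : Multiset (ZMod m)} (hs : IsCharacter m s) (c : ℕ)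
    (hc : ∀ t, orderOf (p : ZMod m) * (m * (c + 1)) ≤ slopeSum p m s t) :
    Supported p m c s := by
  have hm : 0 < m := NeZero.pos m
  have hq : ∀ t, ∃ q, slopeSum p m s t = m * q := fun t => dvd_slopeSum hp s hs.2.2 t
  choose q hq using hq
  have hf0 : 0 < orderOf (p : ZMod m) := H916T.order_pos hp
  have hqinv : ∀ t t' : (ZMod m)ˣ, (t' : ZMod m) = (p : ZMod m) * t → q t' = q t := by
    intro t t' h
    have h1 : t' = up hp * t := Units.ext (by rw [Units.val_mul, up_val, h])
    have h2 := slopeSum_mul hp s t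
    rw [← h1, hq, hq] at h2
    exact Nat.eq_of_mul_eq_mul_left hm h2
  set f := orderOf (p : ZMod m) with hfdef
  have h1 : ∀ t, q t + q (-t) = f * Multiset.card s := by
    intro t
    have h2 := slopeSum_neg_unit hp s hs.2.1 t
    rw [hq, hq, ← mul_add, ← hfdef, mul_left_comm] at h2
    have h3 := Nat.eq_of_mul_eq_mul_left hm h2
    omega
  have h2 : ∀ t, f * (c + 1) ≤ q t := by
    intro t
    have h3 := hc t
    rw [hq, mul_left_comm] at h3
    exact Nat.le_of_mul_le_mul_left h3 hm
  obtain ⟨k, hk⟩ : ∃ k, Multiset.card s = k + 2 * (c + 1) :=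
    ⟨Multiset.card s - 2 * (c + 1), by
      have e1 := h1 1
      have e2 := h2 1
      have e3 := h2 (-1)
      have e4 : f * (2 * (c + 1)) ≤ f * Multiset.card s := by
        rw [← e1]
        have : f * (2 * (c + 1)) = f * (c + 1) + f * (c + 1) := by ring
        omega
      have e5 := Nat.le_of_mul_le_mul_left e4 hf0
      omega⟩
  rcases Nat.eq_zero_or_pos k with rfl | hk0
  · -- the Tate case
    have tate : IsTate p m s := by
      refine (isTate_iff s).2 ⟨hs.2.1, ⟨c + 1, by omega⟩, hs.2.2, fun t => ?_⟩
      have e1 := h1 t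
      have e2 := h2 t
      have e3 := h2 (-t)
      rw [hk, zero_add] at e1
      have e0 : f * (2 * (c + 1)) = f * (c + 1) + f * (c + 1) := by ring
      have e4 : q t = f * (c + 1) := by omega
      rw [hq, e4, hk]
      ring
    obtain ⟨N, hN, hpN, halg⟩ := hgen s tate hs.1
    have : NeZero (N * m) := ⟨Nat.mul_ne_zero hN.ne' hm.ne'⟩
    refine Supported.push N m c s hN hpN hs ?_
    have hs' := isCharacter_raise hN hs
    obtain ⟨a, ha⟩ : ∃ a, a ∈ raise N m s := Multiset.exists_mem_of_ne_zero hs'.1
    have ha0 : a ≠ 0 := fun h => hs'.2.1 (h ▸ ha)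
    have hpair : IsCharacter (N * m) {a, -a} := by
      refine ⟨by simp, ?_, by simp⟩
      simp only [Multiset.insert_eq_cons, Multiset.mem_cons, Multiset.mem_singleton, not_or]
      exact ⟨Ne.symm ha0, Ne.symm (neg_ne_zero.mpr ha0)⟩
    refine Supported.transfer (N * m) 0 c _ _ (Supported.zero _ _ hpair) hs' ?_ ?_
    · have e1 : ({a, -a} : Multiset (ZMod (N * m))).map Neg.neg = {-a, -(-a)} := by simp
      rw [e1]
      exact H916T.Generated.join _ _ halg (H916T.Generated.pair (-a) (neg_ne_zero.mpr ha0))
    · have e1 : Multiset.card (raise N m s) = Multiset.card s := Multiset.card_map _ _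
      rw [e1]
      simp only [Multiset.insert_eq_cons, Multiset.card_cons, Multiset.card_singleton]
      omega
  · obtain ⟨k, rfl⟩ : ∃ j, k = j + 1 := ⟨k - 1, by omega⟩
    obtain ⟨s', g1, g2, g3, g4, g5⟩ := layersP hm2 hp hfull k (fun t => q t - f * (c + 1)) (by
      intro t t' h
      change q t' - f * (c + 1) = q t - f * (c + 1)
      rw [hqinv t t' h]) (by
      intro t
      have e1 := h1 t
      have e2 := h2 t
      have e3 := h2 (-t)
      rw [hk] at e1
      have e0 : f * (k + 1 + 2 * (c + 1)) = (k + 1) * f + (f * (c + 1) + f * (c + 1)) := by ring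
      change q t - f * (c + 1) + (q (-t) - f * (c + 1)) = (k + 1) * f
      omega)
    have hs'ne : s' ≠ 0 := by
      rintro rfl
      simp at g1
    have hs'char : IsCharacter m s' := ⟨hs'ne, g3, g4⟩
    have tate : IsTate p m (s + s'.map Neg.neg) := by
      refine (isTate_iff _).2 ⟨?_, ?_, ?_, fun t => ?_⟩
      · rw [Multiset.mem_add, not_or]
        refine ⟨hs.2.1, fun h => ?_⟩
        obtain ⟨b, hb, hb0⟩ := Multiset.mem_map.1 h
        rw [neg_eq_zero] at hb0
        exact g3 (hb0 ▸ hb)
      · rw [Multiset.card_add, Multiset.card_map, g1, hk]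
        exact ⟨2 * (k + 1) + (c + 1), by ring⟩
      · rw [Multiset.sum_add, hs.2.2, Multiset.sum_map_neg, Multiset.map_id', g4, neg_zero,
          add_zero]
      · have e1 := slopeSum_neg hp s' g3 t
        rw [g5, g1] at e1
        have e2 := h2 t
        have e3 := h2 (-t)
        have e4 := h1 t
        rw [hk] at e4
        have e6 : f * (k + 1 + 2 * (c + 1)) = (k + 1) * f + (f * (c + 1) + f * (c + 1)) := by ring
        have e7 : slopeSum p m (s'.map Neg.neg) t + m * (q t - f * (c + 1) + (k + 1) * f) =
            m * (3 * (k + 1) * f) := by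
          rw [e1]; ring
        have e8 : slopeSum p m (s'.map Neg.neg) t =
            m * (3 * (k + 1) * f - (q t - f * (c + 1) + (k + 1) * f)) := by
          rw [Nat.mul_sub]
          omega
        rw [slopeSum_add, hq, e8, ← mul_add, Multiset.card_add, Multiset.card_map, g1, hk,
          ← mul_assoc, mul_comm 2 m, mul_assoc]
        rw [show orderOf (p : ZMod m) * (m * (k + 1 + 2 * (c + 1) + 3 * (k + 1))) =
          m * (f * (k + 1 + 2 * (c + 1) + 3 * (k + 1))) by rw [← hfdef]; ring]
        congr 1
        have e9 : 3 * (k + 1) * f = (k + 1) * f + ((k + 1) * f + (k + 1) * f) := by ring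
        have e10 : f * (k + 1 + 2 * (c + 1) + 3 * (k + 1)) =
          2 * (f * (c + 1)) + 4 * ((k + 1) * f) := by ring
        rw [e9, e10]
        omega
    obtain ⟨N, hN, hpN, halg⟩ := hgen _ tate (fun h => hs.1 (by rw [add_eq_zero] at h; exact h.1))
    have : NeZero (N * m) := ⟨Nat.mul_ne_zero hN.ne' hm.ne'⟩
    refine Supported.push N m c s hN hpN hs ?_
    rw [raise_add, raise_neg] at halg
    refine Supported.transfer (N * m) k c (raise N m s') (raise N m s)
      (Supported.pull N m k s' hN hpN g2) (isCharacter_raise hN hs) halg ?_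
    have e1 : Multiset.card (raise N m s) = Multiset.card s := Multiset.card_map _ _
    have e2 : Multiset.card (raise N m s') = Multiset.card s' := Multiset.card_map _ _
    rw [e1, e2, g1, hk]
    ring

/-- The algebraic characters are Tate characters. -/
theorem isTate_of_algebraic [NeZero m] (hp : p.Coprime m) {s : Multiset (ZMod m)}
    (h : Algebraic p m s) : IsTate p m s := by
  unfold Algebraic at h
  have hb : ∀ s : Multiset (ZMod m), (SurfaceTate p m s ∨ ∃ q : ℕ, q.Prime ∧ q ∣ m ∧
      Standard q m s) → IsTate p m s := by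
    rintro s (hs | ⟨q, hq, hqm, hodd, a, ha, rfl⟩)
    · exact hs.1
    · obtain ⟨d, hd⟩ := hqm
      have hmq : m / q = d := by rw [hd, Nat.mul_div_cancel_left d hq.pos]
      rw [hmq]
      have hqd : (q : ZMod m) * (d : ZMod m) = 0 := by
        have : ((q * d : ℕ) : ZMod m) = 0 := by rw [← hd]; simp
        simpa using this
      have hsumi : ∑ i ∈ Finset.range q, (a + (i : ZMod m) * (d : ZMod m)) = (q : ZMod m) * a := by
        rw [Finset.sum_add_distrib, Finset.sum_const, Finset.card_range, nsmul_eq_mul,
          ← Finset.sum_mul]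
        obtain ⟨r, hr⟩ := hodd
        have h1 : (∑ i ∈ Finset.range q, (i : ZMod m)) = (q : ZMod m) * (r : ZMod m) := by
          have h2 := Finset.sum_range_id_mul_two q
          have h3 : q * (q - 1) = 2 * (q * r) := by
            rw [hr, Nat.add_sub_cancel]; ring
          have h4 : (∑ i ∈ Finset.range q, i) = q * r := by omega
          rw [← Nat.cast_sum, h4]
          push_cast
          ring
        rw [h1]
        linear_combination (r : ZMod m) * hqd
      refine isTate_of_W hp ?_ ?_ ?_ ?_
      · intro h0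
        rw [Multiset.mem_cons] at h0
        rcases h0 with h0 | h0
        · exact ha (neg_eq_zero.1 h0.symm)
        · obtain ⟨i, -, hi⟩ := Multiset.mem_map.1 h0
          apply ha
          have h1 : (q : ZMod m) * (a + (i : ZMod m) * (d : ZMod m)) = (q : ZMod m) * a := by
            linear_combination (i : ZMod m) * hqd
          rw [← h1, hi, mul_zero]
      · rw [Multiset.card_cons, Multiset.card_map, Multiset.card_range]
        exact hodd.add_one
      · rw [Multiset.sum_cons]
        have h1 : ((Multiset.range q).map fun i : ℕ => a + (i : ZMod m) * (d : ZMod m)).sum =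
          ∑ i ∈ Finset.range q, (a + (i : ZMod m) * (d : ZMod m)) := rfl
        rw [h1, hsumi, neg_add_cancel]
      · intro t
        rw [Multiset.map_cons, Multiset.sum_cons, Multiset.map_map]
        have h1 : ((Multiset.range q).map ((fun a => W p ((t : ZMod m) * a)) ∘
            fun i : ℕ => a + (i : ZMod m) * (d : ZMod m))).sum =
          ∑ i ∈ Finset.range q, W p ((t : ZMod m) * (a + (i : ZMod m) * (d : ZMod m))) := rfl
        rw [h1, W_dist_unit hp hd.symm, mul_neg, W_neg]
        ring
  have hgood : ∀ s : Multiset (ZMod m), H916T.Generated m (fun t => SurfaceTate p m t ∨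
      ∃ q : ℕ, q.Prime ∧ q ∣ m ∧ Standard q m t) s → (0 : ZMod m) ∉ s ∧ Even (Multiset.card s) :=
    fun s hs => H916T.Generated.good (fun s hs => ⟨(hb s hs).1, (hb s hs).2.1⟩) hs
  refine isTate_of_W hp (hgood s h).1 (hgood s h).2 ?_ fun t => ?_
  · induction h with
    | ofBase s hs => exact (hb s hs).2.2.1
    | pair a ha => simp
    | join s s' hs hs' ihs ihs' => rw [Multiset.sum_add, ihs, ihs', add_zero]
    | cancel a s h ih => simpa using ih
  · induction h with
    | ofBase s hs => exact (hb s hs).W_sum hp t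
    | pair a ha =>
      simp only [Multiset.insert_eq_cons, Multiset.map_cons, Multiset.map_singleton,
        Multiset.sum_cons, Multiset.sum_singleton, mul_neg, W_neg]
      ring
    | join s s' hs hs' ihs ihs' => rw [Multiset.map_add, Multiset.sum_add, ihs, ihs', add_zero]
    | cancel a s h ih =>
      simp only [Multiset.map_cons, Multiset.sum_cons, mul_neg, W_neg] at ih
      linarith

theorem slopeSum_raise [NeZero m] {N : ℕ} (hN : 0 < N) (hp : p.Coprime (N * m))
    (s : Multiset (ZMod m)) (t : (ZMod (N * m))ˣ) :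
    ∃ r : ℕ, 0 < r ∧ orderOf (p : ZMod (N * m)) = r * orderOf (p : ZMod m) ∧
      slopeSum p (N * m) (raise N m s) t =
        N * r * slopeSum p m s (ZMod.unitsMap (Dvd.intro_left N rfl : m ∣ N * m) t) := by
  have hzM : NeZero (N * m) := ⟨Nat.mul_ne_zero hN.ne' (NeZero.ne m)⟩
  have hpm : p.Coprime m := Nat.Coprime.coprime_mul_left_right hp
  have hdvd : m ∣ N * m := Dvd.intro_left N rfl
  have h1 : orderOf (p : ZMod m) ∣ orderOf (p : ZMod (N * m)) := by
    apply orderOf_dvd_of_pow_eq_one
    have h2 := congrArg (ZMod.castHom hdvd (ZMod m)) (H916T.pow_order (m := N * m) p)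
    rwa [map_pow, map_natCast, map_one] at h2
  obtain ⟨r, hr⟩ := h1
  have hr' : orderOf (p : ZMod (N * m)) = r * orderOf (p : ZMod m) := by rw [hr]; ring
  have h3 : 0 < orderOf (p : ZMod (N * m)) := H916T.order_pos hp
  refine ⟨r, Nat.pos_of_ne_zero (by rintro rfl; omega), hr', ?_⟩
  have hup : ZMod.unitsMap hdvd (up hp) = up hpm := by
    apply Units.ext
    rw [ZMod.unitsMap_val, up_val, up_val]
    simp
  have htot : ∀ u : (ZMod (N * m))ˣ,
      total (N * m) (raise N m s) u = N * total m s (ZMod.unitsMap hdvd u) := by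
    intro u
    rw [raise_eq]
    unfold total
    rw [Multiset.map_map, ← Multiset.sum_map_mul_left]
    congr 1
    refine Multiset.map_congr rfl fun b _ => ?_
    rw [Function.comp_apply, unit_iota rfl]
    unfold iota
    rw [ZMod.val_natCast, Nat.mod_eq_of_lt]
    exact Nat.mul_lt_mul_of_pos_left (ZMod.val_lt _) hN
  rw [slopeSum_eq hp, slopeSum_eq hpm]
  have h4 : ∀ j ∈ Finset.range (orderOf (p : ZMod (N * m))),
      total (N * m) (raise N m s) (up hp ^ j * t) =
        N * total m s (up hpm ^ j * ZMod.unitsMap hdvd t) := by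
    intro j _
    rw [htot, map_mul, map_pow, hup]
  rw [Finset.sum_congr rfl h4, ← Finset.mul_sum, hr', H916U.sum_range_period, smul_eq_mul]
  · ring
  · intro j
    congr 2
    rw [pow_add]
    have h5 : up hpm ^ orderOf (p : ZMod m) = 1 := by
      apply Units.ext
      rw [Units.val_pow_eq_pow_val, up_val, H916T.pow_order, Units.val_one]
    rw [h5, mul_one]

/-- The rules are sound for the slopes. -/
theorem soundP {c : ℕ} {s : Multiset (ZMod m)} (h : Supported p m c s) (hm : 0 < m)
    (hp : p.Coprime m) : IsCharacter m s ∧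
      ∀ t, orderOf (p : ZMod m) * (m * (c + 1)) ≤ slopeSum p m s t := by
  induction h with
  | zero m s hs =>
    have : NeZero m := ⟨hm.ne'⟩
    refine ⟨hs, fun t => ?_⟩
    rw [slopeSum_eq hp]
    have h1 : ∀ j ∈ Finset.range (orderOf (p : ZMod m)), m * (0 + 1) ≤
        total m s (up hp ^ j * t) := by
      intro j _
      exact (Pool.Agent.W546.Fermat.sound (Pool.Agent.W546.Fermat.Supported.zero s hs)).2 _
    have h2 := Finset.card_nsmul_le_sum (Finset.range (orderOf (p : ZMod m))) _ _ h1
    rwa [Finset.card_range, smul_eq_mul] at h2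
  | join m c c' s s' _ _ ih ih' =>
    have ih := ih hm hp
    have ih' := ih' hm hp
    refine ⟨⟨?_, ?_, ?_⟩, fun t => ?_⟩
    · intro h
      rw [add_eq_zero] at h
      exact ih.1.1 h.1
    · rw [Multiset.mem_add, not_or]
      exact ⟨ih.1.2.1, ih'.1.2.1⟩
    · rw [Multiset.sum_add, ih.1.2.2, ih'.1.2.2, add_zero]
    · rw [slopeSum_add]
      have h1 := ih.2 t
      have h2 := ih'.2 t
      have h3 : orderOf (p : ZMod m) * (m * (c + c' + 1 + 1)) =
        orderOf (p : ZMod m) * (m * (c + 1)) + orderOf (p : ZMod m) * (m * (c' + 1)) := by ring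
      omega
  | transfer m c c' s s' _ hs' halg htw ih =>
    have : NeZero m := ⟨hm.ne'⟩
    have ih := ih hm hp
    refine ⟨hs', fun t => ?_⟩
    have h1 := ((isTate_iff _).1 (isTate_of_algebraic hp halg)).2.2.2 t
    have h2 := slopeSum_neg hp s ih.1.2.1 t
    have h3 := ih.2 t
    rw [slopeSum_add, Multiset.card_add, Multiset.card_map] at h1
    set F := orderOf (p : ZMod m)
    have h4 : F * (m * (Multiset.card s' + 2 * c)) = F * (m * (Multiset.card s + 2 * c')) := by
      rw [htw]
    have e1 : F * (m * (Multiset.card s' + Multiset.card s)) =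
      F * (m * Multiset.card s') + F * (m * Multiset.card s) := by ring
    have e2 : F * (m * (Multiset.card s' + 2 * c)) =
      F * (m * Multiset.card s') + 2 * (F * (m * c)) := by ring
    have e3 : F * (m * (Multiset.card s + 2 * c')) =
      F * (m * Multiset.card s) + 2 * (F * (m * c')) := by ring
    have e4 : F * (m * (c + 1)) = F * (m * c) + F * m := by ring
    have e5 : F * (m * (c' + 1)) = F * (m * c') + F * m := by ring
    omega
  | pull N m c s hN hpN _ ih =>
    have hm' : 0 < m := Nat.pos_of_ne_zero (by rintro rfl; simp at hm)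
    have : NeZero m := ⟨hm'.ne'⟩
    have ih := ih hm' (Nat.Coprime.coprime_mul_left_right hp)
    refine ⟨isCharacter_raise hN ih.1, fun t => ?_⟩
    obtain ⟨r, hr0, hr, h1⟩ := slopeSum_raise hN hp s t
    rw [h1, hr]
    have h2 := ih.2 (ZMod.unitsMap (Dvd.intro_left N rfl : m ∣ N * m) t)
    calc r * orderOf (p : ZMod m) * (N * m * (c + 1)) =
        N * r * (orderOf (p : ZMod m) * (m * (c + 1))) := by ring
      _ ≤ _ := Nat.mul_le_mul_left _ h2
  | push N m c s hN hpN hs _ ih =>
    have : NeZero m := ⟨hm.ne'⟩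
    have hpM : p.Coprime (N * m) := Nat.Coprime.mul_right hpN hp
    have ih := ih (Nat.mul_pos hN hm) hpM
    refine ⟨hs, fun t => ?_⟩
    have hzM : NeZero (N * m) := ⟨Nat.mul_ne_zero hN.ne' hm.ne'⟩
    obtain ⟨t', rfl⟩ := ZMod.unitsMap_surjective (Dvd.intro_left N rfl : m ∣ N * m) t
    obtain ⟨r, hr0, hr, h1⟩ := slopeSum_raise hN hpM s t'
    have h2 := ih.2 t'
    rw [h1, hr] at h2
    have h3 : N * r * (orderOf (p : ZMod m) * (m * (c + 1))) ≤
        N * r * slopeSum p m s (ZMod.unitsMap (Dvd.intro_left N rfl : m ∣ N * m) t') := by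
      calc N * r * (orderOf (p : ZMod m) * (m * (c + 1))) =
        r * orderOf (p : ZMod m) * (N * m * (c + 1)) := by ring
        _ ≤ _ := h2
    exact Nat.le_of_mul_le_mul_left h3 (Nat.mul_pos hN hr0)

/-- The theorem for all divisors of a good degree. -/
theorem finalP {m M : ℕ} (hmM : m ∣ M) (hM : 2 < M) (hp : p.Coprime M) (hfull : FullSlopes p M)
    (hgen : TateAlgebraic p M) {s : Multiset (ZMod m)} (hs : IsCharacter m s) (c : ℕ) :
    Supported p m c s ↔ Effective p m s c := by
  have hm0 : 0 < m := Nat.pos_of_dvd_of_pos hmM (by omega)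
  have hzm : NeZero m := ⟨by omega⟩
  obtain ⟨k, hk⟩ := hmM
  rw [mul_comm] at hk
  subst hk
  have hk0 : 0 < k := Nat.pos_of_ne_zero (by rintro rfl; simp at hM)
  have hzM : NeZero (k * m) := ⟨by omega⟩
  have hpm : p.Coprime m := Nat.Coprime.coprime_mul_left_right hp
  have hpk : p.Coprime k := Nat.Coprime.coprime_mul_right_right hp
  rw [effective_iff hpm hs]
  constructor
  · intro h
    exact (soundP h hm0 hpm).2
  · intro h
    refine Supported.push k m c s hk0 hpk hs ?_
    refine mainP hM hp hfull hgen (isCharacter_raise hk0 hs) c fun t => ?_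
    obtain ⟨r, hr0, hr, h1⟩ := slopeSum_raise hk0 hp s t
    rw [h1, hr]
    calc r * orderOf (p : ZMod m) * (k * m * (c + 1)) =
        k * r * (orderOf (p : ZMod m) * (m * (c + 1))) := by ring
      _ ≤ _ := Nat.mul_le_mul_left _ (h _)

/-- The supersingular case: all slopes occur on Fermat curves. -/
theorem fullSlopes_super [NeZero m] (hm : 2 < m) (hp : p.Coprime m) {j : ℕ}
    (hj : (p : ZMod m) ^ j = -1) : FullSlopes p m := by
  intro g hinv hg
  have h20 : (2 : ZMod m) ≠ 0 := by
    intro h
    have h6 : ((2 : ℕ) : ZMod m) = 0 := by exact_mod_cast h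
    rw [ZMod.natCast_eq_zero_iff] at h6
    exact absurd (Nat.le_of_dvd (by norm_num) h6) (by omega)
  have h10 : (1 : ZMod m) ≠ 0 := by
    intro h
    apply h20
    rw [show (2 : ZMod m) = 1 + 1 by norm_num, h, add_zero]
  have hs0 : (0 : ZMod m) ∉ ({1, 1, -2} : Multiset (ZMod m)) := by
    simp only [Multiset.insert_eq_cons, Multiset.mem_cons, Multiset.mem_singleton, not_or]
    exact ⟨h10.symm, h10.symm, (neg_ne_zero.2 h20).symm⟩
  refine ⟨{1, 1, -2}, by simp, hs0, ?_, fun t => ?_⟩
  · simp only [Multiset.insert_eq_cons, Multiset.sum_cons, Multiset.sum_singleton]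
    ring
  · have hneg : -t = up hp ^ j * t := by
      apply Units.ext
      rw [Units.val_neg, Units.val_mul, Units.val_pow_eq_pow_val, up_val, hj]
      ring
    have h1 := slopeSum_neg_unit hp ({1, 1, -2} : Multiset (ZMod m)) hs0 t
    rw [hneg, slopeSum_pow] at h1
    have hginv : ∀ (j : ℕ) (t : (ZMod m)ˣ), g (up hp ^ j * t) = g t := by
      intro j t
      induction j with
      | zero => rw [pow_zero, one_mul]
      | succ j ihj =>
        rw [pow_succ', mul_assoc, ← ihj]
        apply hinv
        rw [Units.val_mul, up_val]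
    have h2 := hg t
    rw [hneg, hginv] at h2
    have h3 : Multiset.card ({1, 1, -2} : Multiset (ZMod m)) = 3 := by simp
    rw [h3] at h1
    have h4 : 2 * slopeSum p m {1, 1, -2} t = 2 * (m * (g t + orderOf (p : ZMod m))) := by
      have h5 : orderOf (p : ZMod m) * (m * 3) = m * (orderOf (p : ZMod m) +
        2 * orderOf (p : ZMod m)) := by ring
      have h6 : 2 * (m * (g t + orderOf (p : ZMod m))) =
        m * (g t + g t + 2 * orderOf (p : ZMod m)) := by ring
      rw [h6, h2, ← h5, ← h1]
      ring
    omega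

theorem generated_mono {base base' : Multiset (ZMod m) → Prop} (hb : ∀ s, base s → base' s)
    {s : Multiset (ZMod m)} (h : H916T.Generated m base s) : H916T.Generated m base' s := by
  induction h with
  | ofBase s hs => exact H916T.Generated.ofBase s (hb s hs)
  | pair a ha => exact H916T.Generated.pair a ha
  | join s s' _ _ ih ih' => exact H916T.Generated.join s s' ih ih'
  | cancel a s _ ih => exact H916T.Generated.cancel a s ih

/-- The supersingular case: all Tate classes are generated by those of surfaces. -/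
theorem tateAlgebraic_super [NeZero m] (hm : 4 ≤ m) (hp : p.Coprime m) {j : ℕ}
    (hj : (p : ZMod m) ^ j = -1) : TateAlgebraic p m := by
  have key : ∀ (N : ℕ), N = 1 → ∀ s : Multiset (ZMod m), IsTate p m s → s ≠ 0 →
      Algebraic p (N * m) (raise N m s) := by
    intro N hN s hs hs0
    have hNm : N * m = m := by rw [hN, one_mul]
    have : NeZero (N * m) := ⟨by rw [hNm]; exact NeZero.ne m⟩
    have hp' : p.Coprime (N * m) := by rw [hNm]; exact hp
    have hj' : (p : ZMod (N * m)) ^ j = -1 := by rw [hNm]; exact hj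
    have hNe : N ≠ 0 := by omega
    have hchar : IsCharacter (N * m) (raise N m s) :=
      isCharacter_raise (by omega) ⟨hs0, hs.1, hs.2.2.1⟩
    have heven : Even (Multiset.card (raise N m s)) := by
      have : Multiset.card (raise N m s) = Multiset.card s := Multiset.card_map _ _
      rw [this]
      exact hs.2.1
    have h1 : H916T.Generated (N * m) (SurfaceTate p (N * m)) (raise N m s) := by
      refine H916T.generated_of_cQ_sum (fun s hs => ⟨hs.1.1, hs.1.2.1⟩) (fun s hs => hs.neg hp')
        hchar.2.1 heven hchar.1 ?_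
      refine super_sum (by omega) hp' hj' (H916T.cQ_neg) ?_ hchar.2.1 heven hchar.2.2
      intro t ht
      exact H916T.cQ_sum_eq_zero (H916T.Generated.ofBase t ht)
    exact generated_mono (fun s hs => Or.inl hs) h1
  intro s hs hs0
  exact ⟨1, one_pos, Nat.coprime_one_right p, key 1 rfl s hs hs0⟩

end Pool.Agent.W546.FermatP
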