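import Mathlib
import Pool.Agent.W546.FermatP.Main

/-!
# A finite check for the slopes of the Fermat curves
-/

set_option autoImplicit false
set_option linter.unusedSectionVars false
set_option linter.unusedVariables false

namespace Pool.Agent.W546.FermatP

open Pool.Agent.W546.Fermat (IsCharacter)

/-- all lists of numbers at most `f` of length `n` -/
def vecsF (f : ℕ) : ℕ → List (List ℕ)
  | 0 => [[]]
  | n + 1 => (vecsF f n).flatMap fun v => (List.range (f + 1)).map fun x => x :: v

theorem mem_vecsF (f : ℕ) (F : ℕ → ℕ) (hF : ∀ x, F x ≤ f) (H : List ℕ) :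
    H.map F ∈ vecsF f H.length := by
  induction H with
  | nil => simp [vecsF]
  | cons h H ih =>
    rw [List.map_cons, List.length_cons, vecsF, List.mem_flatMap]
    refine ⟨H.map F, ih, ?_⟩
    rw [List.mem_map]
    exact ⟨F h, by rw [List.mem_range]; have := hF h; omega, rfl⟩

/-- the sum of the residues of `p0 ^ j * x * a`, `j < f` -/
def sl (m p0 f x a : ℕ) : ℕ := ((List.range f).map fun j => p0 ^ j * (x * a) % m).sum

/-- the triple `a, b, c` has the slopes `v` at the elements of `R` -/
def okTriple (m p0 f a b c : ℕ) (R v : List ℕ) : Bool :=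
  (R.zip v).all fun x =>
    Nat.beq (sl m p0 f x.1 a + sl m p0 f x.1 b + sl m p0 f x.1 c) (m * (x.2 + f))

/-- the check of one entry of the table -/
def okEntry (m p0 f : ℕ) (R v : List ℕ) (x : ℕ × ℕ) : Bool :=
  Nat.blt 0 x.1 && Nat.blt x.1 m && Nat.blt 0 x.2 && Nat.blt x.2 m &&
    Nat.blt 0 ((2 * m - x.1 - x.2) % m) &&
    okTriple m p0 f x.1 x.2 ((2 * m - x.1 - x.2) % m) R v

/-- the check of the table -/
def check (m p0 f : ℕ) (R : List ℕ) (tab : List (ℕ × ℕ)) : Bool :=
  Nat.blt 0 f && Nat.beq (p0 ^ f % m) 1 &&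
  ((List.range f).all fun i => Nat.beq i 0 || !(Nat.beq (p0 ^ i % m) 1)) &&
  ((List.range m).all fun x => !(Nat.beq (Nat.gcd x m) 1) ||
    R.any fun r => (List.range f).any fun j =>
      Nat.beq (p0 ^ j * r % m) x || Nat.beq (x + p0 ^ j * r % m) m) &&
  ((vecsF f R.length).all fun v => tab.any (okEntry m p0 f R v))

theorem fullSlopes_of_check {m p : ℕ} (hm : 1 < m) (hp : p.Coprime m) (p0 f : ℕ) (R : List ℕ)
    (tab : List (ℕ × ℕ)) (hp0 : p % m = p0) (h : check m p0 f R tab = true) :
    FullSlopes p m := by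
  classical
  have : NeZero m := ⟨by omega⟩
  unfold check at h
  rw [Bool.and_eq_true, Bool.and_eq_true, Bool.and_eq_true, Bool.and_eq_true, List.all_eq_true,
    List.all_eq_true, List.all_eq_true, Nat.blt_eq] at h
  obtain ⟨⟨⟨⟨hf0, hpow⟩, hord⟩, hH⟩, hT⟩ := h
  have hpow := Nat.eq_of_beq_eq_true hpow
  have hcast : (p : ZMod m) = ((p0 : ℕ) : ZMod m) := by
    rw [← hp0, ZMod.natCast_mod]
  have hone : ∀ i : ℕ, (p : ZMod m) ^ i = 1 ↔ p0 ^ i % m = 1 := by
    intro i
    rw [hcast]
    constructor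
    · intro h
      have h1 : ((p0 ^ i : ℕ) : ZMod m) = ((1 : ℕ) : ZMod m) := by push_cast; rw [h]
      rw [ZMod.natCast_eq_natCast_iff] at h1
      have h2 : p0 ^ i % m = 1 % m := h1
      rwa [Nat.mod_eq_of_lt hm] at h2
    · intro h
      have h1 : ((p0 ^ i : ℕ) : ZMod m) = ((1 : ℕ) : ZMod m) := by
        rw [ZMod.natCast_eq_natCast_iff]
        change p0 ^ i % m = 1 % m
        rw [Nat.mod_eq_of_lt hm, h]
      push_cast at h1
      exact h1
  have hof : orderOf (p : ZMod m) = f := by
    rw [orderOf_eq_iff hf0]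
    refine ⟨(hone f).2 hpow, fun i hi hi0 h1 => ?_⟩
    have h2 := hord i (List.mem_range.2 hi)
    rw [Bool.or_eq_true] at h2
    rcases h2 with h2 | h2
    · have := Nat.eq_of_beq_eq_true h2
      omega
    · rw [(hone i).1 h1] at h2
      simp at h2
  intro g hinv hg
  rw [hof] at hg ⊢
  let F : ℕ → ℕ := fun x => if hx : Nat.Coprime x m then g (ZMod.unitOfCoprime x hx) else 0
  have hF : ∀ x, F x ≤ f := by
    intro x
    simp only [F]
    split_ifs with hx
    · have := hg (ZMod.unitOfCoprime x hx)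
      omega
    · omega
  have h1 := hT _ (mem_vecsF f F hF R)
  rw [List.any_eq_true] at h1
  obtain ⟨⟨a, b⟩, -, h2⟩ := h1
  unfold okEntry at h2
  simp only [Bool.and_eq_true, Nat.blt_eq] at h2
  obtain ⟨⟨⟨⟨⟨ha0, ham⟩, hb0⟩, hbm⟩, hc0⟩, h3⟩ := h2
  set c := (2 * m - a - b) % m with hc
  have hcm : c < m := Nat.mod_lt _ (by omega)
  unfold okTriple at h3
  rw [List.all_eq_true] at h3
  have h4 : ∀ x ∈ R, sl m p0 f x a + sl m p0 f x b + sl m p0 f x c = m * (F x + f) := by
    intro x hx
    have h5 := h3 (x, F x) (by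
      rw [List.zip_map_right, List.mem_map]
      exact ⟨(x, x), by
        rw [List.mem_iff_get] at hx ⊢
        obtain ⟨n, hn⟩ := hx
        refine ⟨⟨n.1, by simp⟩, ?_⟩
        simp [hn]
        exact hn, rfl⟩)
    exact Nat.eq_of_beq_eq_true h5
  have hne : ∀ x : ℕ, 0 < x → x < m → ((x : ℕ) : ZMod m) ≠ 0 := by
    intro x h0 h1 h2
    rw [ZMod.natCast_eq_zero_iff] at h2
    exact absurd (Nat.le_of_dvd h0 h2) (by omega)
  let s : Multiset (ZMod m) := {(a : ZMod m), (b : ZMod m), (c : ZMod m)}
  have hs0 : (0 : ZMod m) ∉ s := by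
    simp only [s, Multiset.insert_eq_cons, Multiset.mem_cons, Multiset.mem_singleton, not_or]
    exact ⟨(hne a ha0 ham).symm, (hne b hb0 hbm).symm, (hne c hc0 hcm).symm⟩
  have hcard : Multiset.card s = 3 := by simp [s]
  have hsl : ∀ (t : (ZMod m)ˣ) (r : ℕ), (t : ZMod m) = (r : ZMod m) →
      slopeSum p m s t = sl m p0 f r a + sl m p0 f r b + sl m p0 f r c := by
    intro t r hr
    have e : ∀ (j x : ℕ), ((p : ZMod m) ^ j * ((t : ZMod m) * ((x : ℕ) : ZMod m))).val =
        p0 ^ j * (r * x) % m := by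
      intro j x
      rw [hr, hcast, ← ZMod.val_natCast]
      congr 1
      push_cast
      ring
    unfold slopeSum sl
    rw [hof]
    simp only [s, Multiset.insert_eq_cons, Multiset.map_cons, Multiset.map_singleton,
      Multiset.sum_cons, Multiset.sum_singleton]
    have hlist : ∀ G : ℕ → ℕ, ((List.range f).map G).sum = ∑ j ∈ Finset.range f, G j := by
      intro G
      rw [Finset.sum_range, ← List.sum_ofFn]
      congr 1
      exact List.ext_getElem (by simp) (by simp)
    rw [hlist, hlist, hlist, ← Finset.sum_add_distrib, ← Finset.sum_add_distrib]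
    refine Finset.sum_congr rfl fun j _ => ?_
    rw [e, e, e, add_assoc]
  have hginv : ∀ (j : ℕ) (t : (ZMod m)ˣ), g (up hp ^ j * t) = g t := by
    intro j t
    induction j with
    | zero => rw [pow_zero, one_mul]
    | succ j ihj =>
      rw [pow_succ', mul_assoc, ← ihj]
      apply hinv
      rw [Units.val_mul, up_val]
  -- the units which are a power of `p` times an element of `R`
  have hgood : ∀ (t : (ZMod m)ˣ) (r j : ℕ), r ∈ R → p0 ^ j * r % m = (t : ZMod m).val →
      slopeSum p m s t = m * (g t + f) := by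
    intro t r j hr hj
    have h5 : (t : ZMod m) = (p : ZMod m) ^ j * (r : ZMod m) := by
      have h6 : (((t : ZMod m).val : ℕ) : ZMod m) = (t : ZMod m) := ZMod.natCast_zmod_val _
      rw [← h6, ← hj, ZMod.natCast_mod, hcast]
      push_cast
      ring
    have hur : IsUnit (r : ZMod m) := by
      have h6 : IsUnit ((p : ZMod m) ^ j * (r : ZMod m)) := h5 ▸ t.isUnit
      exact (IsUnit.mul_iff.1 h6).2
    have hrc : Nat.Coprime r m := (ZMod.isUnit_iff_coprime r m).1 hur
    have ht : t = up hp ^ j * ZMod.unitOfCoprime r hrc := by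
      apply Units.ext
      rw [Units.val_mul, Units.val_pow_eq_pow_val, up_val, ZMod.coe_unitOfCoprime, h5]
    rw [ht, slopeSum_pow, hginv, hsl _ r (ZMod.coe_unitOfCoprime r hrc), h4 r hr]
    simp only [F]
    rw [dif_pos hrc]
  refine ⟨s, hcard, hs0, ?_, fun t => ?_⟩
  · simp only [s, Multiset.insert_eq_cons, Multiset.sum_cons, Multiset.sum_singleton]
    have h5 : ((a + (b + c) : ℕ) : ZMod m) = 0 := by
      rw [ZMod.natCast_eq_zero_iff]
      have h6 : a + (b + c) ≡ a + (b + (2 * m - a - b)) [MOD m] :=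
        Nat.ModEq.add_left _ (Nat.ModEq.add_left _ (Nat.mod_modEq _ _))
      have h7 : a + (b + (2 * m - a - b)) = 2 * m := by omega
      rw [h7] at h6
      exact (Nat.modEq_zero_iff_dvd).1 (h6.trans ((Nat.modEq_zero_iff_dvd).2 ⟨2, by ring⟩))
    push_cast at h5
    exact h5
  · have h5 := hH (t : ZMod m).val (List.mem_range.2 (ZMod.val_lt _))
    have h6 : Nat.beq (Nat.gcd (t : ZMod m).val m) 1 = true := by
      rw [show Nat.gcd (t : ZMod m).val m = 1 from ZMod.val_coe_unit_coprime t]
      rfl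
    rw [h6, Bool.not_true, Bool.false_or, List.any_eq_true] at h5
    obtain ⟨r, hr, h7⟩ := h5
    rw [List.any_eq_true] at h7
    obtain ⟨j, -, h7⟩ := h7
    rw [Bool.or_eq_true] at h7
    rcases h7 with h7 | h7
    · exact hgood t r j hr (Nat.eq_of_beq_eq_true h7)
    · have h8 := Nat.eq_of_beq_eq_true h7
      have h9 : p0 ^ j * r % m = ((-t : (ZMod m)ˣ) : ZMod m).val := by
        have h10 := Pool.Agent.W546.Fermat.val_neg_add (m := m) (b := (t : ZMod m)) (by
          intro h0
          have h11 : (t : ZMod m).val = 0 := by rw [h0]; exact ZMod.val_zero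
          have h12 := ZMod.val_coe_unit_coprime t
          rw [h11, Nat.coprime_zero_left] at h12
          omega)
        rw [Units.val_neg]
        omega
      have h10 := hgood (-t) r j hr h9
      have h11 := slopeSum_neg_unit hp s hs0 t
      have h12 := hg t
      rw [h10, hcard, hof] at h11
      have h13 : m * (g (-t) + f) + m * (g t + f) = f * (m * 3) := by
        rw [← mul_add, show g (-t) + f + (g t + f) = 3 * f by omega]
        ring
      omega

end Pool.Agent.W546.FermatP
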