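import Pool.Agent.W546.FermatP.Check

/-!
# The tables
-/

set_option autoImplicit false

namespace Pool.Agent.W546.FermatP

/-- the check for a list of residue classes of `p`; an entry of `L` is the residue of `p`, its
order, representatives of the classes of units, and a table of triples -/
def inst (M : ℕ) (L : List (ℕ × ℕ × List ℕ × List (ℕ × ℕ))) : Bool :=
  L.all fun e => check M e.1 e.2.1 e.2.2.1 e.2.2.2

theorem full_of_inst {M p : ℕ} (hM : 1 < M) (hp : p.Coprime M)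
    (L : List (ℕ × ℕ × List ℕ × List (ℕ × ℕ))) (h : inst M L = true)
    (hr : p % M ∈ L.map Prod.fst) : FullSlopes p M := by
  rw [List.mem_map] at hr
  obtain ⟨e, he, hr⟩ := hr
  unfold inst at h
  rw [List.all_eq_true] at h
  exact fullSlopes_of_check hM hp e.1 e.2.1 e.2.2.1 e.2.2.2 hr.symm (h e he)

/-- the table for the degree 16 -/
def L16 : List (ℕ × ℕ × List ℕ × List (ℕ × ℕ)) :=
  [(1, 1, [1, 3, 5, 7], [(1, 1), (1, 2), (1, 3), (1, 6), (1, 5), (2, 4), (3, 3), (2, 5), (7,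
   11), (6, 13), (6, 12), (6, 11), (4, 14), (4, 13), (3, 14), (2, 15)]), (3, 4, [1], [(1, 6),
   (1, 2), (1, 1), (1, 5), (4, 14)]), (5, 4, [1], [(2, 4), (1, 2), (1, 1), (1, 3), (6, 12)]),
   (7, 2, [1, 3], [(1, 1), (1, 3), (3, 3), (1, 2), (1, 6), (2, 5), (6, 13), (4, 13), (2, 15)]),
   (9, 2, [1, 3], [(1, 6), (1, 2), (2, 4), (1, 3), (1, 1), (1, 5), (6, 12), (3, 14), (4, 14)]),
   (11, 4, [1], [(1, 6), (1, 2), (1, 1), (1, 5), (4, 14)]), (13, 4, [1], [(2, 4), (1, 2), (1,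
   1), (1, 3), (6, 12)])]

theorem inst_16 : inst 16 L16 = true := by decide +kernel

/-- the table for the degree 20 -/
def L20 : List (ℕ × ℕ × List ℕ × List (ℕ × ℕ)) :=
  [(1, 1, [1, 3, 7, 9], [(1, 1), (1, 4), (1, 5), (1, 2), (3, 5), (1, 6), (5, 5), (2, 5), (7,
   15), (10, 15), (7, 14), (8, 15), (3, 18), (6, 15), (5, 16), (2, 19)]), (3, 4, [1], [(1, 1),
   (1, 4), (1, 2), (2, 5), (2, 19)]), (7, 4, [1], [(1, 1), (1, 4), (1, 2), (2, 5), (2, 19)]),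
   (9, 2, [1, 3], [(1, 1), (1, 5), (5, 5), (1, 4), (1, 2), (2, 5), (10, 15), (6, 15), (2,
   19)]), (11, 2, [1, 3], [(1, 2), (1, 4), (1, 6), (1, 5), (1, 1), (3, 5), (7, 14), (5, 16),
   (3, 18)]), (13, 4, [1], [(5, 5), (1, 5), (1, 1), (1, 4), (10, 15)]), (17, 4, [1], [(5, 5),
   (1, 5), (1, 1), (1, 4), (10, 15)])]

theorem inst_20 : inst 20 L20 = true := by decide +kernel

/-- the table for the degree 22 -/
def L22 : List (ℕ × ℕ × List ℕ × List (ℕ × ℕ)) :=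
  [(1, 1, [1, 3, 5, 7, 9], [(1, 1), (1, 2), (1, 3), (1, 9), (1, 8), (1, 4), (3, 3), (2, 3), (5,
   7), (1, 7), (3, 5), (2, 6), (4, 5), (2, 7), (3, 6), (3, 7), (10, 15), (9, 16), (8, 18), (9,
   17), (8, 16), (8, 17), (8, 15), (12, 15), (5, 19), (6, 19), (5, 18), (9, 14), (4, 20), (4,
   19), (3, 20), (2, 21)]), (3, 5, [1], [(1, 3), (1, 1), (1, 2), (1, 4), (2, 7), (4, 19)]), (5,
   5, [1], [(1, 3), (1, 1), (1, 2), (1, 4), (2, 7), (4, 19)]), (9, 5, [1], [(1, 3), (1, 1), (1,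
   2), (1, 4), (2, 7), (4, 19)]), (15, 5, [1], [(1, 3), (1, 1), (1, 2), (1, 4), (2, 7), (4,
   19)])]

theorem inst_22 : inst 22 L22 = true := by decide +kernel

/-- the table for the degree 24 -/
def L24 : List (ℕ × ℕ × List ℕ × List (ℕ × ℕ)) :=
  [(1, 1, [1, 5, 7, 11], [(1, 1), (1, 2), (1, 3), (1, 6), (1, 9), (1, 4), (3, 3), (2, 3), (5,
   21), (6, 21), (5, 20), (10, 15), (4, 22), (4, 21), (3, 22), (2, 23)]), (5, 2, [1, 7], [(1,
   1), (1, 2), (1, 6), (1, 9), (1, 4), (2, 3), (4, 22), (3, 22), (2, 23)]), (7, 2, [1, 5], [(1,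
   1), (1, 2), (1, 4), (1, 3), (1, 6), (2, 3), (5, 20), (3, 22), (2, 23)]), (11, 2, [1, 5],
   [(1, 1), (1, 3), (3, 3), (1, 2), (1, 4), (2, 3), (6, 21), (4, 21), (2, 23)]), (13, 2, [1,
   5], [(1, 6), (1, 2), (1, 4), (1, 3), (1, 1), (1, 9), (5, 20), (3, 22), (4, 22)]), (17, 2,
   [1, 5], [(1, 6), (1, 3), (3, 3), (1, 2), (1, 1), (1, 9), (6, 21), (4, 21), (4, 22)]), (19,
   2, [1, 7], [(1, 4), (1, 9), (3, 3), (1, 2), (1, 1), (1, 3), (6, 21), (5, 21), (5, 20)])]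

theorem inst_24 : inst 24 L24 = true := by decide +kernel

/-- the table for the degree 30 -/
def L30 : List (ℕ × ℕ × List ℕ × List (ℕ × ℕ)) :=
  [(1, 1, [1, 7, 11, 13], [(1, 1), (1, 6), (1, 5), (1, 2), (1, 12), (1, 4), (1, 8), (2, 4), (6,
   26), (9, 22), (5, 26), (6, 27), (3, 28), (6, 25), (7, 24), (2, 29)]), (7, 4, [1], [(1, 5),
   (1, 1), (1, 6), (1, 4), (6, 25)]), (11, 2, [1, 7], [(1, 6), (1, 1), (1, 12), (1, 2), (1, 5),
   (1, 8), (6, 27), (2, 29), (7, 24)]), (13, 4, [1], [(1, 5), (1, 1), (1, 6), (1, 4), (6,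
   25)]), (17, 4, [1], [(2, 4), (1, 2), (1, 5), (1, 1), (6, 26)]), (19, 2, [1, 7], [(1, 5), (1,
   2), (2, 4), (1, 1), (1, 6), (1, 4), (6, 26), (3, 28), (6, 25)]), (23, 4, [1], [(2, 4), (1,
   2), (1, 5), (1, 1), (6, 26)])]

theorem inst_30 : inst 30 L30 = true := by decide +kernel

/-- the table for the degree 36 -/
def L36 : List (ℕ × ℕ × List ℕ × List (ℕ × ℕ)) :=
  [(1, 1, [1, 5, 7, 11, 13, 17], [(1, 1), (1, 4), (1, 11), (1, 2), (1, 3), (1, 6), (1, 13), (1,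
   16), (1, 15), (1, 10), (1, 5), (2, 4), (3, 3), (2, 9), (5, 9), (2, 5), (1, 7), (1, 14), (7,
   7), (2, 7), (3, 7), (2, 6), (7, 13), (2, 13), (5, 14), (2, 14), (5, 7), (4, 5), (3, 5), (3,
   14), (5, 5), (4, 13), (17, 23), (10, 31), (11, 30), (8, 31), (9, 31), (12, 29), (8, 32),
   (16, 27), (15, 23), (20, 23), (8, 30), (10, 29), (9, 29), (14, 29), (13, 29), (8, 29), (7,
   31), (14, 27), (7, 32), (6, 33), (6, 32), (6, 31), (11, 26), (16, 21), (4, 34), (14, 23),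
   (5, 33), (4, 33), (3, 34), (12, 25), (5, 32), (2, 35)]), (5, 6, [1], [(3, 3), (1, 3), (1,
   1), (1, 4), (1, 2), (2, 7), (6, 33)]), (7, 6, [1], [(2, 6), (1, 6), (1, 3), (1, 1), (1, 11),
   (1, 5), (8, 30)]), (13, 3, [1, 5], [(3, 3), (1, 3), (1, 6), (2, 6), (1, 15), (1, 1), (1, 4),
   (1, 14), (1, 5), (1, 11), (1, 2), (2, 7), (8, 30), (5, 33), (4, 33), (6, 33)]), (17, 2, [1,
   5, 7], [(1, 1), (1, 3), (3, 3), (1, 7), (1, 5), (3, 5), (7, 7), (5, 7), (5, 5), (1, 4), (1,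
   6), (2, 9), (1, 2), (1, 16), (2, 5), (2, 7), (2, 13), (4, 13), (10, 31), (12, 29), (14, 29),
   (8, 31), (6, 31), (8, 29), (6, 33), (4, 33), (2, 35)]), (19, 2, [1, 5, 7], [(1, 16), (1, 2),
   (2, 4), (1, 6), (1, 4), (1, 10), (2, 6), (1, 14), (2, 14), (1, 13), (1, 11), (1, 5), (1, 3),
   (1, 1), (1, 15), (3, 7), (1, 7), (5, 14), (8, 32), (11, 30), (8, 30), (9, 31), (5, 32), (5,
   33), (6, 32), (3, 34), (4, 34)]), (25, 3, [1, 5], [(3, 3), (1, 3), (1, 6), (2, 6), (1, 15),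
   (1, 1), (1, 4), (1, 14), (1, 5), (1, 11), (1, 2), (2, 7), (8, 30), (5, 33), (4, 33), (6,
   33)]), (29, 6, [1], [(3, 3), (1, 3), (1, 1), (1, 4), (1, 2), (2, 7), (6, 33)]), (31, 6, [1],
   [(2, 6), (1, 6), (1, 3), (1, 1), (1, 11), (1, 5), (8, 30)])]

theorem inst_36 : inst 36 L36 = true := by decide +kernel

/-- the table for the degree 42 -/
def L42 : List (ℕ × ℕ × List ℕ × List (ℕ × ℕ)) :=
  [(1, 1, [1, 5, 11, 13, 17, 19], [(1, 1), (1, 13), (1, 14), (1, 2), (5, 9), (1, 6), (1, 9),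
   (2, 12), (10, 14), (1, 11), (1, 7), (2, 14), (1, 3), (3, 11), (9, 14), (1, 19), (5, 14), (1,
   8), (4, 7), (4, 14), (1, 16), (6, 8), (12, 14), (2, 8), (5, 7), (13, 14), (7, 7), (2, 7),
   (3, 14), (2, 15), (3, 7), (6, 14), (20, 28), (10, 35), (9, 36), (17, 28), (9, 35), (14, 35),
   (27, 28), (12, 35), (10, 34), (26, 28), (14, 34), (10, 37), (18, 28), (11, 35), (9, 34),
   (19, 28), (4, 40), (23, 28), (14, 31), (4, 39), (16, 28), (8, 35), (12, 31), (24, 28), (14,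
   30), (10, 33), (7, 36), (14, 33), (3, 40), (15, 28), (14, 29), (2, 41)]), (11, 6, [1], [(2,
   8), (2, 12), (1, 2), (1, 13), (1, 1), (10, 14), (10, 34)]), (13, 2, [1, 5, 11], [(1, 13),
   (1, 2), (2, 14), (1, 1), (1, 14), (1, 7), (5, 14), (4, 7), (7, 7), (1, 6), (2, 12), (1, 19),
   (5, 9), (1, 3), (6, 14), (1, 16), (3, 14), (3, 7), (14, 35), (11, 35), (19, 28), (8, 35),
   (15, 28), (2, 41), (16, 28), (3, 40), (14, 29)]), (19, 6, [1], [(7, 7), (1, 7), (1, 14), (1,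
   1), (1, 13), (1, 6), (14, 35)]), (23, 6, [1], [(2, 8), (2, 12), (1, 2), (1, 13), (1, 1),
   (10, 14), (10, 34)]), (25, 3, [1, 11], [(2, 8), (4, 14), (2, 7), (7, 7), (2, 12), (1, 2),
   (1, 14), (1, 7), (1, 6), (1, 13), (1, 1), (10, 14), (14, 35), (9, 35), (18, 28), (10, 34)]),
   (29, 2, [1, 5, 11], [(1, 9), (5, 9), (1, 3), (2, 12), (1, 6), (3, 11), (2, 8), (6, 8), (2,
   15), (1, 14), (1, 1), (10, 14), (1, 2), (1, 13), (1, 11), (4, 14), (1, 8), (13, 14), (9,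
   36), (14, 34), (10, 34), (14, 31), (4, 40), (14, 30), (4, 39), (14, 33), (10, 33)]), (31, 6,
   [1], [(7, 7), (1, 7), (1, 14), (1, 1), (1, 13), (1, 6), (14, 35)]), (37, 3, [1, 11], [(2,
   8), (4, 14), (2, 7), (7, 7), (2, 12), (1, 2), (1, 14), (1, 7), (1, 6), (1, 13), (1, 1), (10,
   14), (14, 35), (9, 35), (18, 28), (10, 34)])]

theorem inst_42 : inst 42 L42 = true := by decide +kernel

/-- the table for the degree 15 -/
def L15 : List (ℕ × ℕ × List ℕ × List (ℕ × ℕ)) :=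
  [(2, 4, [1], [(1, 2), (1, 1), (1, 3), (1, 7), (3, 13)])]

theorem inst_15 : inst 15 L15 = true := by decide +kernel

/-- the table for the degree 21 -/
def L21 : List (ℕ × ℕ × List ℕ × List (ℕ × ℕ)) :=
  [(2, 6, [1], [(1, 4), (1, 6), (1, 1), (1, 7), (1, 5), (5, 7), (5, 17)])]

theorem inst_21 : inst 21 L21 = true := by decide +kernel

/-- the table for the degree 26 -/
def L26 : List (ℕ × ℕ × List ℕ × List (ℕ × ℕ)) :=
  [(3, 3, [1, 5], [(1, 7), (1, 3), (1, 1), (1, 10), (1, 11), (1, 2), (2, 4), (1, 5), (2, 7),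
   (2, 8), (1, 8), (4, 5), (7, 22), (2, 25), (4, 23), (5, 23)]), (9, 3, [1, 5], [(1, 7), (1,
   3), (1, 1), (1, 10), (1, 11), (1, 2), (2, 4), (1, 5), (2, 7), (2, 8), (1, 8), (4, 5), (7,
   22), (2, 25), (4, 23), (5, 23)])]

theorem inst_26 : inst 26 L26 = true := by decide +kernel

/-- the table for the degree 28 -/
def L28 : List (ℕ × ℕ × List ℕ × List (ℕ × ℕ)) :=
  [(5, 6, [1], [(7, 7), (1, 7), (1, 1), (1, 3), (1, 6), (3, 4), (14, 21)]), (13, 2, [1, 3, 5],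
   [(1, 1), (1, 3), (3, 3), (1, 7), (1, 5), (3, 5), (7, 7), (5, 7), (5, 5), (1, 4), (1, 6), (3,
   4), (1, 2), (1, 12), (2, 5), (4, 7), (2, 9), (4, 9), (10, 23), (12, 21), (14, 21), (8, 23),
   (6, 23), (8, 21), (6, 25), (4, 25), (2, 27)]), (17, 6, [1], [(7, 7), (1, 7), (1, 1), (1, 3),
   (1, 6), (3, 4), (14, 21)])]

theorem inst_28 : inst 28 L28 = true := by decide +kernel

/-- the table for the degree 32 -/
def L32 : List (ℕ × ℕ × List ℕ × List (ℕ × ℕ)) :=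
  [(3, 8, [1], [(2, 12), (1, 4), (1, 6), (1, 2), (1, 1), (1, 3), (2, 10), (5, 7), (8, 28)]),
   (11, 8, [1], [(2, 12), (1, 4), (1, 6), (1, 2), (1, 1), (1, 3), (2, 10), (5, 7), (8, 28)]),
   (19, 8, [1], [(2, 12), (1, 4), (1, 6), (1, 2), (1, 1), (1, 3), (2, 10), (5, 7), (8, 28)]),
   (27, 8, [1], [(2, 12), (1, 4), (1, 6), (1, 2), (1, 1), (1, 3), (2, 10), (5, 7), (8, 28)])]

theorem inst_32 : inst 32 L32 = true := by decide +kernel

/-- the table for the degree 40 -/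
def L40 : List (ℕ × ℕ × List ℕ × List (ℕ × ℕ)) :=
  [(3, 4, [1, 7], [(1, 18), (2, 15), (1, 3), (1, 15), (5, 5), (1, 14), (1, 2), (4, 15), (1, 1),
   (1, 5), (2, 7), (1, 4), (1, 8), (4, 5), (1, 17), (2, 13), (2, 39), (4, 11), (1, 13), (5,
   13), (10, 35), (7, 35), (4, 37), (11, 34), (4, 38)]), (27, 4, [1, 7], [(1, 18), (2, 15), (1,
   3), (1, 15), (5, 5), (1, 14), (1, 2), (4, 15), (1, 1), (1, 5), (2, 7), (1, 4), (1, 8), (4,
   5), (1, 17), (2, 13), (2, 39), (4, 11), (1, 13), (5, 13), (10, 35), (7, 35), (4, 37), (11,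
   34), (4, 38)])]

theorem inst_40 : inst 40 L40 = true := by decide +kernel

/-- the table for the degree 45 -/
def L45 : List (ℕ × ℕ × List ℕ × List (ℕ × ℕ)) :=
  [(2, 12, [1], [(3, 6), (1, 6), (1, 20), (1, 3), (1, 4), (1, 1), (1, 14), (1, 2), (1, 5), (1,
   11), (5, 7), (7, 39), (9, 39)])]

theorem inst_45 : inst 45 L45 = true := by decide +kernel

/-- the table for the degree 48 -/
def L48 : List (ℕ × ℕ × List ℕ × List (ℕ × ℕ)) :=
  [(5, 4, [1, 7], [(1, 22), (1, 2), (1, 10), (1, 20), (2, 12), (1, 14), (1, 5), (1, 8), (1, 4),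
   (3, 4), (1, 11), (1, 3), (1, 1), (1, 21), (1, 13), (7, 44), (1, 19), (1, 9), (6, 19), (3,
   19), (8, 44), (9, 43), (6, 44), (3, 46), (4, 46)]), (7, 2, [1, 5, 11, 17], [(1, 7), (3, 10),
   (1, 22), (1, 3), (1, 11), (1, 14), (3, 3), (2, 3), (8, 11), (1, 15), (1, 5), (1, 2), (1, 1),
   (4, 15), (1, 16), (1, 21), (1, 4), (1, 8), (9, 9), (2, 9), (5, 8), (1, 9), (1, 19), (8, 9),
   (8, 17), (3, 8), (2, 8), (3, 5), (2, 6), (5, 10), (11, 17), (3, 20), (6, 11), (3, 11), (3,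
   6), (2, 13), (5, 20), (1, 20), (2, 5), (9, 43), (1, 6), (4, 5), (1, 13), (3, 4), (4, 13),
   (5, 9), (5, 5), (2, 19), (5, 17), (4, 17), (4, 19), (3, 19), (4, 6), (8, 13), (10, 40), (11,
   40), (25, 31), (17, 39), (11, 41), (10, 39), (13, 40), (11, 39), (18, 39), (9, 40), (5, 44),
   (10, 41), (6, 44), (19, 33), (2, 47), (3, 46), (6, 43), (16, 33), (19, 37), (5, 45), (6,
   45), (9, 41), (12, 37), (4, 45), (4, 46), (13, 38), (8, 41)]), (13, 4, [1, 5], [(2, 12), (3,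
   4), (1, 4), (1, 8), (2, 8), (1, 20), (1, 6), (1, 2), (1, 16), (7, 8), (2, 6), (1, 15), (1,
   1), (1, 9), (1, 19), (3, 5), (1, 7), (1, 3), (1, 11), (9, 11), (10, 40), (9, 40), (5, 44),
   (7, 44), (8, 44)]), (29, 4, [1, 7], [(1, 22), (1, 2), (1, 10), (1, 20), (2, 12), (1, 14),
   (1, 5), (1, 8), (1, 4), (3, 4), (1, 11), (1, 3), (1, 1), (1, 21), (1, 13), (7, 44), (1, 19),
   (1, 9), (6, 19), (3, 19), (8, 44), (9, 43), (6, 44), (3, 46), (4, 46)]), (37, 4, [1, 5],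
   [(2, 12), (3, 4), (1, 4), (1, 8), (2, 8), (1, 20), (1, 6), (1, 2), (1, 16), (7, 8), (2, 6),
   (1, 15), (1, 1), (1, 9), (1, 19), (3, 5), (1, 7), (1, 3), (1, 11), (9, 11), (10, 40), (9,
   40), (5, 44), (7, 44), (8, 44)])]

theorem inst_48 : inst 48 L48 = true := by decide +kernel

/-- the table for the degree 54 -/
def L54 : List (ℕ × ℕ × List ℕ × List (ℕ × ℕ)) :=
  [(7, 9, [1], [(3, 9), (1, 9), (4, 9), (1, 3), (1, 1), (1, 2), (1, 17), (1, 8), (4, 5), (12,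
   45)]), (13, 9, [1], [(3, 9), (1, 9), (4, 9), (1, 3), (1, 1), (1, 2), (1, 17), (1, 8), (4,
   5), (12, 45)]), (25, 9, [1], [(3, 9), (1, 9), (4, 9), (1, 3), (1, 1), (1, 2), (1, 17), (1,
   8), (4, 5), (12, 45)]), (31, 9, [1], [(3, 9), (1, 9), (4, 9), (1, 3), (1, 1), (1, 2), (1,
   17), (1, 8), (4, 5), (12, 45)]), (43, 9, [1], [(3, 9), (1, 9), (4, 9), (1, 3), (1, 1), (1,
   2), (1, 17), (1, 8), (4, 5), (12, 45)]), (49, 9, [1], [(3, 9), (1, 9), (4, 9), (1, 3), (1,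
   1), (1, 2), (1, 17), (1, 8), (4, 5), (12, 45)])]

theorem inst_54 : inst 54 L54 = true := by decide +kernel

/-- the table for the degree 66 -/
def L66 : List (ℕ × ℕ × List ℕ × List (ℕ × ℕ)) :=
  [(7, 10, [1], [(11, 11), (1, 11), (1, 22), (2, 22), (1, 1), (1, 5), (1, 21), (4, 18), (1,
   10), (5, 6), (22, 55)]), (13, 10, [1], [(11, 11), (1, 11), (1, 22), (2, 22), (1, 1), (1, 5),
   (1, 21), (4, 18), (1, 10), (5, 6), (22, 55)]), (19, 10, [1], [(11, 11), (1, 11), (1, 22),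
   (2, 22), (1, 1), (1, 5), (1, 21), (4, 18), (1, 10), (5, 6), (22, 55)]), (61, 10, [1], [(11,
   11), (1, 11), (1, 22), (2, 22), (1, 1), (1, 5), (1, 21), (4, 18), (1, 10), (5, 6), (22,
   55)])]

theorem inst_66 : inst 66 L66 = true := by decide +kernel

/-- the table for the degree 90 -/
def L90 : List (ℕ × ℕ × List ℕ × List (ℕ × ℕ)) :=
  [(23, 12, [1], [(6, 12), (2, 12), (2, 40), (1, 6), (2, 8), (1, 2), (1, 9), (1, 1), (2, 10),
   (1, 5), (10, 14), (14, 78), (18, 78)]), (47, 12, [1], [(6, 12), (2, 12), (2, 40), (1, 6),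
   (2, 8), (1, 2), (1, 9), (1, 1), (2, 10), (1, 5), (10, 14), (14, 78), (18, 78)]), (77, 12,
   [1], [(6, 12), (2, 12), (2, 40), (1, 6), (2, 8), (1, 2), (1, 9), (1, 1), (2, 10), (1, 5),
   (10, 14), (14, 78), (18, 78)]), (83, 12, [1], [(6, 12), (2, 12), (2, 40), (1, 6), (2, 8),
   (1, 2), (1, 9), (1, 1), (2, 10), (1, 5), (10, 14), (14, 78), (18, 78)])]

theorem inst_90 : inst 90 L90 = true := by decide +kernel

end Pool.Agent.W546.FermatP
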